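import Pool.Agent.Lib_MP_3937af_ck.Compact

/-!
# The partition property implies the compactness property
-/

set_option autoImplicit false

namespace CKer

open Set Cardinal

universe u

section lex

variable {α β : Type u} [LinearOrder α] [WellFoundedLT α] (A : α → Set β)

/-- the pattern of `x` is lexicographically at most the pattern of `y` -/
def Lle (x y : β) : Prop :=
  (∀ i, x ∈ A i ↔ y ∈ A i) ∨ ∃ i, (∀ j < i, x ∈ A j ↔ y ∈ A j) ∧ x ∉ A i ∧ y ∈ A i

theorem first_diff {x y : β} {P : α → Prop} (h : ∃ i, P i ∧ ¬ (x ∈ A i ↔ y ∈ A i))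
    (hP : ∀ i j, j < i → P i → P j) : ∃ i, P i ∧ (∀ j < i, x ∈ A j ↔ y ∈ A j) ∧
      ((x ∈ A i ∧ y ∉ A i) ∨ (x ∉ A i ∧ y ∈ A i)) := by
  obtain ⟨i, hi, hmin⟩ := (wellFounded_lt (α := α)).has_min
    {i | P i ∧ ¬ (x ∈ A i ↔ y ∈ A i)} h
  refine ⟨i, hi.1, fun j hj => ?_, ?_⟩
  · by_contra h1
    exact hmin j ⟨hP i j hj hi.1, h1⟩ hj
  · have h2 := hi.2
    by_cases h3 : x ∈ A i
    · exact Or.inl ⟨h3, fun h4 => h2 ⟨fun _ => h4, fun _ => h3⟩⟩
    · refine Or.inr ⟨h3, ?_⟩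
      by_contra h4
      exact h2 ⟨fun h5 => absurd h5 h3, fun h5 => absurd h5 h4⟩

theorem Lle.total (x y : β) : Lle A x y ∨ Lle A y x := by
  by_cases h : ∀ i, x ∈ A i ↔ y ∈ A i
  · exact Or.inl (Or.inl h)
  push Not at h
  obtain ⟨i, _, hi, h1 | h1⟩ := first_diff A (x := x) (y := y) (P := fun _ => True)
    (by
      obtain ⟨i, hi⟩ := h
      exact ⟨i, trivial, fun h2 => by tauto⟩) (fun _ _ _ _ => trivial)
  · exact Or.inr (Or.inr ⟨i, fun j hj => (hi j hj).symm, h1.2, h1.1⟩)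
  · exact Or.inl (Or.inr ⟨i, hi, h1.1, h1.2⟩)

/-- convexity of the lexicographic order -/
theorem Lle.conv {x y z : β} {i : α} (hxy : Lle A x y) (hyz : Lle A y z)
    (hxz : ∀ j ≤ i, x ∈ A j ↔ z ∈ A j) : ∀ j ≤ i, x ∈ A j ↔ y ∈ A j := by
  by_contra hcon
  push Not at hcon
  obtain ⟨k, hk, hk1, hk2⟩ := first_diff A (x := x) (y := y) (P := fun j => j ≤ i)
    (by
      obtain ⟨j, hj, hj'⟩ := hcon
      exact ⟨j, hj, fun h2 => by tauto⟩) (fun a b hb ha => hb.le.trans ha)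
  have h1 : x ∉ A k ∧ y ∈ A k := by
    rcases hk2 with h2 | h2
    · exfalso
      rcases hxy with h3 | ⟨m, hm, hm1, hm2⟩
      · exact h2.2 ((h3 k).1 h2.1)
      · rcases lt_trichotomy m k with h4 | h4 | h4
        · exact hm1 ((hk1 m h4).2 hm2)
        · rw [h4] at hm1
          exact hm1 h2.1
        · exact h2.2 ((hm k h4).1 h2.1)
    · exact h2
  have h2 : z ∉ A k := fun h3 => h1.1 ((hxz k hk).2 h3)
  have h3 : ∀ j < k, y ∈ A j ↔ z ∈ A j := fun j hj =>
    (hk1 j hj).symm.trans (hxz j (hj.le.trans hk))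
  rcases hyz with h4 | ⟨m, hm, hm1, hm2⟩
  · exact h2 ((h4 k).1 h1.2)
  · rcases lt_trichotomy m k with h5 | h5 | h5
    · exact hm1 ((h3 m h5).2 hm2)
    · rw [h5] at hm1
      exact hm1 h1.2
    · exact h2 ((hm k h5).1 h1.2)

end lex

/-- an inaccessible cardinal with the partition property `κ → (κ)²₂` has the property `Decides` -/
theorem Arrow.decides {S : Type u} (hS : (#S).IsInaccessible) (harr : Arrow S) : Decides S := by
  intro A
  have h0 : ℵ₀ ≤ #S := hS.aleph0_lt.le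
  have hreg : #S ≤ (#S).ord.cof := hS.isRegular.2
  obtain ⟨lo, wf, hlo⟩ := Cardinal.exists_ord_eq_type_lt S
  have hIic : ∀ i : S, #(Set.Iic i) < #S := by
    intro i
    have h1 : #(Set.Iio i) < #S := Cardinal.mk_Iio_lt i hlo
    have h2 : Set.Iic i = Set.Iio i ∪ {i} := by
      apply Set.ext
      intro x
      constructor
      · intro hx
        rcases lt_or_eq_of_le (show x ≤ i from hx) with h3 | h3
        · exact Or.inl h3
        · exact Or.inr h3
      · rintro (h3 | h3)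
        · exact le_of_lt h3
        · exact le_of_eq h3
    rw [h2]
    refine lt_of_le_of_lt (Cardinal.mk_union_le _ _) (Cardinal.add_lt_of_lt h0 h1 ?_)
    rw [Cardinal.mk_singleton]
    exact (Cardinal.one_lt_aleph0).trans_le h0
  -- large sets are unbounded
  have hunb : ∀ (T : Set S) (b : S), #S ≤ #T → ∃ z ∈ T, b < z := by
    intro T b hT
    by_contra hcon
    push Not at hcon
    exact absurd (hT.trans (Cardinal.mk_le_mk_of_subset hcon)) (not_le.2 (hIic b))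
  have hbdd : ∀ T : Set S, #T < #S → ∃ b, ∀ x ∈ T, x ≤ b := by
    intro T hT
    by_contra hcon
    push Not at hcon
    have h1 : IsCofinal T := by
      intro i
      obtain ⟨j, hj, hj'⟩ := hcon i
      exact ⟨j, hj, hj'.le⟩
    have h2 := Order.cof_le h1
    have h3 : #S ≤ Order.cof S := by
      have h4 := hreg
      rwa [hlo, Ordinal.cof_type] at h4
    exact absurd (h3.trans h2) (not_le.2 hT)
  obtain ⟨H, hH, hH'⟩ := harr (fun x y => (x ≤ y → Lle A x y) ∧ (y ≤ x → Lle A y x))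
    (fun x y h => ⟨h.2, h.1⟩)
  -- monotonicity along the homogeneous set
  have hmono : (∀ x ∈ H, ∀ y ∈ H, x < y → Lle A x y) ∨ ∀ x ∈ H, ∀ y ∈ H, x < y → Lle A y x := by
    rcases hH' with h1 | h1
    · exact Or.inl fun x hx y hy hxy => (h1 x hx y hy hxy.ne).1 hxy.le
    · refine Or.inr fun x hx y hy hxy => ?_
      rcases Lle.total A x y with h2 | h2
      · exact absurd ⟨fun _ => h2, fun h3 => absurd hxy (not_lt.2 h3)⟩ (h1 x hx y hy hxy.ne)
      · exact h2
  have hbet : ∀ x ∈ H, ∀ y ∈ H, ∀ z ∈ H, x < y → y < z → ∀ i, (∀ j ≤ i, x ∈ A j ↔ z ∈ A j) →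
      ∀ j ≤ i, x ∈ A j ↔ y ∈ A j := by
    intro x hx y hy z hz hxy hyz i hi
    rcases hmono with h1 | h1
    · exact Lle.conv A (h1 x hx y hy hxy) (h1 y hy z hz hyz) hi
    · have h2 := Lle.conv A (h1 y hy z hz hyz) (h1 x hx y hy hxy) fun j hj => (hi j hj).symm
      exact fun j hj => (hi j hj).trans (h2 j hj)
  -- membership in `A i` is eventually constant along the homogeneous set
  have hev : ∀ i : S, ∃ b : S, ∃ p : Prop, ∀ x ∈ H, b < x → (x ∈ A i ↔ p) := by
    intro i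
    obtain ⟨t, F, hFH, hF, hFt⟩ := Cardinal.infinite_pigeonhole_set
      (f := fun x : H => {j : Set.Iic i | (x : S) ∈ A j}) (#S) hH.ge h0 (by
        rw [Cardinal.mk_set]
        exact (hS.isStrongPrelimit (hIic i)).trans_le hreg)
    obtain ⟨x0, hx0⟩ : F.Nonempty := by
      rw [Set.nonempty_iff_ne_empty]
      rintro rfl
      have h9 : #(∅ : Set S) = 0 := by simp
      rw [h9] at hF
      exact absurd (Cardinal.aleph0_pos.trans_le (h0.trans hF)) (lt_irrefl _)
    refine ⟨x0, x0 ∈ A i, fun y hy hxy => ?_⟩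
    obtain ⟨z, hz, hyz⟩ := hunb F y hF
    have h1 : ∀ j ≤ i, x0 ∈ A j ↔ z ∈ A j := by
      intro j hj
      have h2 : {j : Set.Iic i | x0 ∈ A j} = {j : Set.Iic i | z ∈ A j} :=
        (hFt hx0).trans (hFt hz).symm
      have h3 : (⟨j, hj⟩ : Set.Iic i) ∈ {j : Set.Iic i | x0 ∈ A j} ↔
        (⟨j, hj⟩ : Set.Iic i) ∈ {j : Set.Iic i | z ∈ A j} := by rw [h2]
      exact h3
    exact (hbet x0 (hFH hx0) y hy z (hFH hz) hxy hyz i h1 i le_rfl).symm
  choose b p hbp using hev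
  refine ⟨{i | p i}, fun J hJ => ?_⟩
  have hJ' : #J < #S := by
    refine hJ.trans_lt ?_
    rw [← Cardinal.succ_aleph0]
    exact hS.isSuccLimit.succ_lt hS.aleph0_lt
  obtain ⟨c, hc⟩ := hbdd (b '' J) (Cardinal.mk_image_le.trans_lt hJ')
  refine le_antisymm (Cardinal.mk_set_le _) ?_
  by_contra hcon
  rw [not_le] at hcon
  have h1 : H ⊆ Set.Iic c ∪ {x | ∀ i ∈ J, (x ∈ A i ↔ i ∈ {i | p i})} := by
    intro x hx
    rcases le_or_gt x c with h2 | h2
    · exact Or.inl h2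
    · exact Or.inr fun i hi => hbp i x hx ((hc _ ⟨i, hi, rfl⟩).trans_lt h2)
  have h2 := (Cardinal.mk_le_mk_of_subset h1).trans (Cardinal.mk_union_le _ _)
  rw [hH] at h2
  exact absurd h2 (not_le.2 (Cardinal.add_lt_of_lt h0 (hIic c) hcon))

end CKer
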