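import Mathlib

/-!
# Automorphisms of `P(Λ)/Fin`: liftings and Boolean operations modulo finite sets
-/

set_option autoImplicit false

namespace CKer

open Set Cardinal

universe u

variable {Λ : Type u}

/-- inclusion modulo a finite set -/
def SF (A B : Set Λ) : Prop := (A \ B).Finite

/-- equality modulo a finite set -/
def EF (A B : Set Λ) : Prop := SF A B ∧ SF B A

theorem SF.of_subset {A B : Set Λ} (h : A ⊆ B) : SF A B := by
  rw [SF, sdiff_eq_empty.2 h]
  exact finite_empty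

theorem SF.refl (A : Set Λ) : SF A A := SF.of_subset subset_rfl

theorem SF.trans {A B C : Set Λ} (h1 : SF A B) (h2 : SF B C) : SF A C := by
  refine (Set.Finite.union h1 h2).subset fun x hx => ?_
  by_cases hb : x ∈ B
  · exact Or.inr ⟨hb, hx.2⟩
  · exact Or.inl ⟨hx.1, hb⟩

theorem SF.mono {A B A' B' : Set Λ} (h : SF A B) (hA : A' ⊆ A) (hB : B ⊆ B') : SF A' B' :=
  Set.Finite.subset h fun _ hx => ⟨hA hx.1, fun h' => hx.2 (hB h')⟩

theorem SF.union {A B C : Set Λ} (h1 : SF A C) (h2 : SF B C) : SF (A ∪ B) C := by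
  refine (Set.Finite.union h1 h2).subset fun x hx => ?_
  rcases hx.1 with h | h
  · exact Or.inl ⟨h, hx.2⟩
  · exact Or.inr ⟨h, hx.2⟩

theorem SF.inter {A B C : Set Λ} (h1 : SF A B) (h2 : SF A C) : SF A (B ∩ C) := by
  refine (Set.Finite.union h1 h2).subset fun x hx => ?_
  by_cases hb : x ∈ B
  · exact Or.inr ⟨hx.1, fun hc => hx.2 ⟨hb, hc⟩⟩
  · exact Or.inl ⟨hx.1, hb⟩

theorem SF.compl {A B : Set Λ} (h : SF A B) : SF Bᶜ Aᶜ :=
  Set.Finite.subset h fun _ hx => ⟨not_not.1 hx.2, hx.1⟩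

theorem SF.finite {A B : Set Λ} (h : SF A B) (hB : B.Finite) : A.Finite := by
  refine (Set.Finite.union h hB).subset fun x hx => ?_
  by_cases hb : x ∈ B
  · exact Or.inr hb
  · exact Or.inl ⟨hx, hb⟩

theorem SF.infinite_inter {A B : Set Λ} (h : SF A B) (hA : A.Infinite) : (A ∩ B).Infinite := by
  intro hf
  apply hA
  refine (Set.Finite.union h hf).subset fun x hx => ?_
  by_cases hb : x ∈ B
  · exact Or.inr ⟨hx, hb⟩
  · exact Or.inl ⟨hx, hb⟩

theorem EF.refl (A : Set Λ) : EF A A := ⟨SF.refl A, SF.refl A⟩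

theorem EF.symm {A B : Set Λ} (h : EF A B) : EF B A := ⟨h.2, h.1⟩

theorem EF.trans {A B C : Set Λ} (h1 : EF A B) (h2 : EF B C) : EF A C :=
  ⟨h1.1.trans h2.1, h2.2.trans h1.2⟩

theorem EF.union {A B C D : Set Λ} (h1 : EF A B) (h2 : EF C D) : EF (A ∪ C) (B ∪ D) :=
  ⟨(h1.1.mono subset_rfl subset_union_left).union (h2.1.mono subset_rfl subset_union_right),
    (h1.2.mono subset_rfl subset_union_left).union (h2.2.mono subset_rfl subset_union_right)⟩

theorem EF.compl {A B : Set Λ} (h : EF A B) : EF Aᶜ Bᶜ := ⟨h.2.compl, h.1.compl⟩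

/-- `Φ` and `Ψ` are liftings of an automorphism of `P(Λ)/Fin` and of its inverse -/
structure AutPair (Φ Ψ : Set Λ → Set Λ) : Prop where
  le : ∀ A B, SF (Φ A) (Φ B) ↔ SF A B
  le' : ∀ A B, SF (Ψ A) (Ψ B) ↔ SF A B
  lr : ∀ A, EF (Ψ (Φ A)) A
  rl : ∀ A, EF (Φ (Ψ A)) A

namespace AutPair

variable {Φ Ψ : Set Λ → Set Λ}

theorem swap (h : AutPair Φ Ψ) : AutPair Ψ Φ := ⟨h.le', h.le, h.rl, h.lr⟩

theorem to_psi (h : AutPair Φ Ψ) {A B : Set Λ} : SF (Φ A) B ↔ SF A (Ψ B) := by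
  constructor
  · intro h1
    exact (h.lr A).2.trans ((h.le' _ _).2 h1)
  · intro h1
    exact ((h.le _ _).2 h1).trans (h.rl B).1

theorem of_psi (h : AutPair Φ Ψ) {A B : Set Λ} : SF B (Φ A) ↔ SF (Ψ B) A := h.swap.to_psi.symm

theorem sf (h : AutPair Φ Ψ) {A B : Set Λ} (hAB : SF A B) : SF (Φ A) (Φ B) := (h.le _ _).2 hAB

theorem ef (h : AutPair Φ Ψ) {A B : Set Λ} (hAB : EF A B) : EF (Φ A) (Φ B) :=
  ⟨h.sf hAB.1, h.sf hAB.2⟩

theorem union (h : AutPair Φ Ψ) (A B : Set Λ) : EF (Φ (A ∪ B)) (Φ A ∪ Φ B) := by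
  refine ⟨h.to_psi.2 (SF.union (h.to_psi.1 (SF.of_subset subset_union_left))
    (h.to_psi.1 (SF.of_subset subset_union_right))),
    SF.union (h.sf (SF.of_subset subset_union_left)) (h.sf (SF.of_subset subset_union_right))⟩

theorem inter (h : AutPair Φ Ψ) (A B : Set Λ) : EF (Φ (A ∩ B)) (Φ A ∩ Φ B) := by
  refine ⟨SF.inter (h.sf (SF.of_subset inter_subset_left))
    (h.sf (SF.of_subset inter_subset_right)),
    h.of_psi.2 (SF.inter (h.of_psi.1 (SF.of_subset inter_subset_left))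
    (h.of_psi.1 (SF.of_subset inter_subset_right)))⟩

theorem empty (h : AutPair Φ Ψ) : (Φ ∅).Finite := by
  have h1 : SF (Φ ∅) ∅ := h.to_psi.2 (SF.of_subset (empty_subset _))
  exact h1.finite finite_empty

theorem finite_iff (h : AutPair Φ Ψ) {A : Set Λ} : (Φ A).Finite ↔ A.Finite := by
  have key : ∀ {Φ Ψ : Set Λ → Set Λ}, AutPair Φ Ψ → ∀ A : Set Λ, A.Finite → (Φ A).Finite := by
    intro Φ Ψ h A hA
    have h1 : SF A ∅ := hA.subset sdiff_subset
    exact (h.sf h1).finite h.empty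
  refine ⟨fun h1 => ?_, key h A⟩
  exact (h.lr A).2.finite (key h.swap _ h1)

theorem infinite (h : AutPair Φ Ψ) {A : Set Λ} (hA : A.Infinite) : (Φ A).Infinite :=
  fun h1 => hA (h.finite_iff.1 h1)

theorem inter_finite (h : AutPair Φ Ψ) {A B : Set Λ} (hA : (A ∩ B).Finite) :
    (Φ A ∩ Φ B).Finite :=
  (h.inter A B).2.finite (h.finite_iff.2 hA)

theorem univ (h : AutPair Φ Ψ) : SF Set.univ (Φ Set.univ) :=
  h.of_psi.2 (SF.of_subset (subset_univ _))

theorem compl (h : AutPair Φ Ψ) (A : Set Λ) : EF (Φ Aᶜ) (Φ A)ᶜ := by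
  constructor
  · have h1 : (Φ Aᶜ ∩ Φ A).Finite := h.inter_finite (by
      rw [compl_inter_self]; exact finite_empty)
    refine Set.Finite.subset h1 fun x hx => ⟨hx.1, not_not.1 hx.2⟩
  · have h1 : SF Set.univ (Φ A ∪ Φ Aᶜ) := by
      refine h.univ.trans ?_
      have h2 := (h.union A Aᶜ).1
      rwa [union_compl_self] at h2
    refine Set.Finite.subset h1 fun x hx => ⟨trivial, fun h3 => ?_⟩
    rcases h3 with h3 | h3
    · exact hx.1 h3
    · exact hx.2 h3

end AutPair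

/-- an almost disjoint family of infinite sets almost contained in a set of size `κ = κ ^ ℵ₀` has
size at most `κ` -/
theorem adis {κ : Cardinal.{u}} (hκ' : κ ^ ℵ₀ = κ) {ι : Type u} (C : ι → Set Λ) {X : Set Λ}
    (hX : #X ≤ κ) (hC : ∀ i, (C i).Infinite) (hCX : ∀ i, SF (C i) X)
    (hd : ∀ i j, i ≠ j → (C i ∩ C j).Finite) : #ι ≤ κ := by
  have hPinf : ∀ j, (C j ∩ X).Infinite := fun j => (hCX j).infinite_inter (hC j)
  let G : ι → (ℕ → X) := fun j m =>
    ⟨((hPinf j).natEmbedding _ m : Λ), ((hPinf j).natEmbedding _ m).2.2⟩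
  have hG : Function.Injective G := by
    intro j k hjk
    by_contra hne
    refine (Set.infinite_range_of_injective (f := fun m => (G j m : Λ)) ?_)
      ((hd j k hne).subset ?_)
    · intro m m' hm
      exact ((hPinf j).natEmbedding _).injective (Subtype.ext hm)
    · rintro _ ⟨m, rfl⟩
      refine ⟨((hPinf j).natEmbedding _ m).2.1, ?_⟩
      show (G j m : Λ) ∈ _
      rw [hjk]
      exact ((hPinf k).natEmbedding _ m).2.1
  have h1 := Cardinal.mk_le_of_injective hG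
  have h2 : #(ℕ → X) = #X ^ ℵ₀ := by
    rw [Cardinal.mk_arrow, Cardinal.mk_nat, Cardinal.lift_aleph0, Cardinal.lift_id']
  rw [h2] at h1
  refine h1.trans ?_
  rw [← hκ']
  exact Cardinal.power_le_power_right hX

namespace AutPair

variable {Φ Ψ : Set Λ → Set Λ}

/-- the image of a set of size `κ = κ ^ ℵ₀` has size at most `κ` -/
theorem small (h : AutPair Φ Ψ) {κ : Cardinal.{u}} (hκ : ℵ₀ ≤ κ) (hκ' : κ ^ ℵ₀ = κ) {S : Set Λ}
    (hS : #S ≤ κ) : #(Φ S) ≤ κ := by
  by_contra hcon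
  rw [not_le] at hcon
  have hinf : ℵ₀ ≤ #(Φ S) := hκ.trans hcon.le
  have hE : #(Φ S × ℕ) = #(Φ S) := by
    rw [Cardinal.mk_prod, Cardinal.lift_id', Cardinal.mk_nat, Cardinal.lift_aleph0]
    exact Cardinal.mul_aleph0_eq hinf
  obtain ⟨E⟩ := Cardinal.eq.1 hE
  let D : Φ S → Set Λ := fun j => Set.range fun m : ℕ => (E (j, m) : Λ)
  have hDinf : ∀ j, (D j).Infinite := by
    intro j
    refine Set.infinite_range_of_injective fun m m' hm => ?_
    have h1 := E.injective (Subtype.ext hm)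
    exact (Prod.mk.inj h1).2
  have hDsub : ∀ j, D j ⊆ Φ S := by
    rintro j _ ⟨m, rfl⟩
    exact (E (j, m)).2
  have hDdis : ∀ j k, j ≠ k → D j ∩ D k = ∅ := by
    intro j k hjk
    rw [Set.eq_empty_iff_forall_notMem]
    rintro x ⟨⟨m, hm⟩, ⟨m', hm'⟩⟩
    have h1 : E (j, m) = E (k, m') := Subtype.ext (hm.trans hm'.symm)
    exact hjk (Prod.mk.inj (E.injective h1)).1
  refine absurd (adis hκ' (fun j : Φ S => Ψ (D j)) hS (fun j => h.swap.infinite (hDinf j))
    (fun j => h.of_psi.1 (SF.of_subset (hDsub j))) fun j k hjk => h.swap.inter_finite ?_)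
    (not_le.2 hcon)
  rw [hDdis j k hjk]
  exact finite_empty

end AutPair

end CKer
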