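import Pool.Agent.Lib_MP_3937af_ck.Patch

/-!
# Chains of sets, and strong limit cardinals of countable cofinality
-/

set_option autoImplicit false

namespace CKer

open Set Cardinal

universe u

variable {Λ : Type u} {Φ Ψ : Set Λ → Set Λ}

theorem Triv.mono {κ : Cardinal.{u}} {S S' : Set Λ} (h : Triv Φ κ S) (hS : S' ⊆ S) :
    Triv Φ κ S' := by
  obtain ⟨X, e, hX, he⟩ := h
  exact ⟨X, e, hX, he.mono fun x hx => ⟨hS hx.1, hx.2⟩⟩

theorem Triv.weaken {κ μ : Cardinal.{u}} {S : Set Λ} (h : Triv Φ κ S) (hκ : κ ≤ μ) :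
    Triv Φ μ S := by
  obtain ⟨X, e, hX, he⟩ := h
  exact ⟨X, e, hX.trans hκ, he⟩

theorem Triv.union (hΦ : AutPair Φ Ψ) {κ : Cardinal.{u}} (hκ : ℵ₀ ≤ κ) {S T : Set Λ}
    (hS : Triv Φ κ S) (hT : Triv Φ κ T) : Triv Φ κ (S ∪ T) := by
  obtain ⟨X1, e1, hX1, he1⟩ := hS
  obtain ⟨X2, e2, hX2, he2⟩ := hT
  obtain ⟨e, he⟩ := Impl.glue hΦ (A := S \ X1) (B := T \ X2) (e := e1) (e' := e2)
    (he1.mono sdiff_subset) he2
  refine ⟨X1 ∪ X2, e, mk_union_le' hκ hX1 hX2, he.mono ?_⟩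
  rintro x ⟨hx | hx, hx'⟩
  · exact Or.inl ⟨hx, fun h => hx' (Or.inl h)⟩
  · exact Or.inr ⟨hx, fun h => hx' (Or.inr h)⟩

/-- if the exceptional set can be chosen in a class on which the automorphism is trivial modulo
`κ`, then the automorphism is trivial modulo `κ` -/
theorem Triv.step (hΦ : AutPair Φ Ψ) {κ μ : Cardinal.{u}} (hκ : ℵ₀ ≤ κ) {S : Set Λ}
    (hS : Triv Φ μ S) (hμ : ∀ X : Set Λ, #X ≤ μ → Triv Φ κ X) : Triv Φ κ S := by
  obtain ⟨X, e, hX, he⟩ := hS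
  have h1 : Triv Φ κ (S \ X) := ⟨∅, e, by simp, he.mono sdiff_subset⟩
  refine (h1.union hΦ hκ (hμ X hX)).mono fun x hx => ?_
  by_cases hx' : x ∈ X
  · exact Or.inr hx'
  · exact Or.inl ⟨hx, hx'⟩

/-- a set which meets every member of a chain covering it in a finite set is countable -/
theorem chain_countable {I : Type u} {Q : I → Set Λ} (hch : ∀ i j, Q i ⊆ Q j ∨ Q j ⊆ Q i)
    {D : Set Λ} (hcov : ∀ x ∈ D, ∃ i, x ∈ Q i) (hD : ∀ i, (D ∩ Q i).Finite) : D.Countable := by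
  by_cases hinf : D.Infinite
  · obtain ⟨C, hCD, hCi, hCc⟩ := exists_ctbl hinf
    have h1 : ∀ c : C, ∃ i, (c : Λ) ∈ Q i := fun c => hcov c (hCD c.2)
    choose j hj using h1
    have : Countable C := hCc.to_subtype
    have h2 : (⋃ c : C, D ∩ Q (j c)).Countable := countable_iUnion fun c => (hD _).countable
    refine h2.mono fun x hx => ?_
    obtain ⟨i, hi⟩ := hcov x hx
    have h3 : ¬ C ⊆ Q i := fun h4 => hCi ((hD i).subset fun y hy => ⟨hCD hy, h4 hy⟩)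
    rw [Set.not_subset] at h3
    obtain ⟨c, hc, hc'⟩ := h3
    refine mem_iUnion.2 ⟨⟨c, hc⟩, hx, ?_⟩
    rcases hch i (j ⟨c, hc⟩) with h5 | h5
    · exact h5 hi
    · exact absurd (h5 (hj ⟨c, hc⟩)) hc'
  · exact (Set.not_infinite.1 hinf).countable

/-- an infinite type has a chain of small subsets covering it, indexed by its cofinality -/
theorem exists_cover (α : Type u) (hα : ℵ₀ ≤ #α) : ∃ (I : Type u) (Q : I → Set α),
    #I = (#α).ord.cof ∧ (∀ i j, Q i ⊆ Q j ∨ Q j ⊆ Q i) ∧ (∀ x, ∃ i, x ∈ Q i) ∧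
      ∀ i, #(Q i) < #α := by
  obtain ⟨lo, wf, hlo⟩ := Cardinal.exists_ord_eq_type_lt α
  obtain ⟨s, hs, hs'⟩ := Order.exists_cof_eq α
  refine ⟨s, fun i => Set.Iic (i : α), ?_, fun i j => ?_, fun x => ?_, fun i => ?_⟩
  · rw [hs', hlo, Ordinal.cof_type]
  · rcases le_total (i : α) (j : α) with h | h
    · exact Or.inl (Set.Iic_subset_Iic.2 h)
    · exact Or.inr (Set.Iic_subset_Iic.2 h)
  · obtain ⟨y, hy, hxy⟩ := hs x
    exact ⟨⟨y, hy⟩, hxy⟩
  · have h1 : #(Set.Iio (i : α)) < #α := Cardinal.mk_Iio_lt (i : α) hlo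
    have h2 : Set.Iic (i : α) = Set.Iio (i : α) ∪ {(i : α)} := by
      apply Set.ext
      intro x
      constructor
      · intro hx
        rcases lt_or_eq_of_le (show x ≤ i from hx) with h3 | h3
        · exact Or.inl h3
        · exact Or.inr h3
      · rintro (h3 | h3)
        · exact le_of_lt h3
        · exact le_of_eq h3
    show #(Set.Iic (i : α)) < #α
    rw [h2]
    refine lt_of_le_of_lt (Cardinal.mk_union_le _ _) (Cardinal.add_lt_of_lt hα h1 ?_)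
    rw [Cardinal.mk_singleton]
    exact (Cardinal.one_lt_aleph0).trans_le hα

/-- the step at a union of a chain of length smaller than the cardinality -/
theorem triv_chain (h : AutPair Φ Ψ) {S : Set Λ} {I : Type u} {Q : I → Set Λ}
    (hch : ∀ i j, Q i ⊆ Q j ∨ Q j ⊆ Q i) (hcov : ∀ x ∈ S, ∃ i, x ∈ Q i)
    (hQ : ∀ i, Triv Φ ℵ₀ (Q i)) (hloc : ∀ S' : Set Λ, #S' ≤ Order.succ ℵ₀ → Triv Φ ℵ₀ S')
    (hI : ∀ S' : Set Λ, #S' ≤ max (#I) ℵ₀ → Triv Φ ℵ₀ S') : Triv Φ ℵ₀ S := by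
  choose X e hX he using hQ
  have hm : (ℵ₀ : Cardinal.{u}) ≤ max (#I) ℵ₀ := le_max_right _ _
  let D : I × I → Set Λ := fun p => {x | x ∈ (Q p.1 \ X p.1) ∩ (Q p.2 \ X p.2) ∧ e p.1 x ≠ e p.2 x}
  have hD : ∀ p, (D p).Finite := fun p =>
    ((he p.1).mono inter_subset_left).unique h ((he p.2).mono inter_subset_right)
  let T : Set Λ := (⋃ i, X i) ∪ ⋃ p : I × I, D p
  have hT : #T ≤ max (#I) ℵ₀ := by
    refine mk_union_le' hm (mk_iUnion_le' hm (le_max_left _ _) fun i => (hX i).trans hm)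
      (mk_iUnion_le' hm ?_ fun p => mk_finite_le hm (hD p))
    rw [Cardinal.mk_prod, Cardinal.lift_id]
    exact (mul_le_mul' (le_max_left _ _) (le_max_left _ _)).trans (Cardinal.mul_eq_self hm).le
  by_cases hS : S = ∅
  · rw [hS]
    exact Triv.of_le h (by simp)
  obtain ⟨x0, hx0⟩ := Set.nonempty_iff_ne_empty.2 hS
  obtain ⟨i0, hi0⟩ := hcov x0 hx0
  classical
  let N : Λ → I := fun x => if hx : ∃ i, x ∈ Q i then hx.choose else i0
  have hN : ∀ x, (∃ i, x ∈ Q i) → x ∈ Q (N x) := by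
    intro x hx
    have h1 : N x = hx.choose := dif_pos hx
    rw [h1]
    exact hx.choose_spec
  let g : Λ → Λ := fun x => e (N x) x
  have hg : ∀ i, Impl Φ g (Q i \ T) := by
    intro i
    refine ((he i).mono fun x hx => ⟨hx.1, fun h1 => hx.2 (Or.inl (mem_iUnion.2 ⟨i, h1⟩))⟩).congr
      fun x hx => ?_
    by_contra h1
    refine hx.2 (Or.inr (mem_iUnion.2 ⟨(i, N x), ⟨⟨hx.1, ?_⟩, ⟨hN x ⟨i, hx.1⟩, ?_⟩⟩, h1⟩))
    · exact fun h2 => hx.2 (Or.inl (mem_iUnion.2 ⟨i, h2⟩))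
    · exact fun h2 => hx.2 (Or.inl (mem_iUnion.2 ⟨N x, h2⟩))
  obtain ⟨X', hX', hX''⟩ := patch h le_rfl (S := S \ T) g (by
    intro S' hS' hcard
    obtain ⟨Y, f, hY, hf⟩ := hloc S' hcard
    refine ⟨Y, f, hY, hf, Cardinal.le_aleph0_iff_set_countable.2 ?_⟩
    refine chain_countable hch (fun x hx => hcov x (hS' hx.1.1).1) fun i => ?_
    refine (((hf.mono inter_subset_left).unique h ((hg i).mono inter_subset_right)) :
      {x | x ∈ (S' \ Y) ∩ (Q i \ T) ∧ f x ≠ g x}.Finite).subset ?_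
    rintro x ⟨hx, hx'⟩
    exact ⟨⟨hx.1, hx', (hS' hx.1.1).2⟩, hx.2⟩)
  have h1 : Triv Φ ℵ₀ (S \ T) := ⟨X', g, hX', hX''⟩
  refine (h1.union h le_rfl (hI T hT)).mono fun x hx => ?_
  by_cases hx' : x ∈ T
  · exact Or.inr hx'
  · exact Or.inl ⟨hx, hx'⟩

/-- two functions which differ on an infinite set are separated on an infinite set -/
theorem exists_sep {P : Type u} {D : Set Λ} (hD : D.Infinite) (c d : Λ → P)
    (hcd : ∀ x ∈ D, c x ≠ d x) : ∃ K : Set P, {x | x ∈ D ∧ c x ∈ K ∧ d x ∉ K}.Infinite := by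
  by_cases h1 : ∃ p, {x | x ∈ D ∧ c x = p}.Infinite
  · obtain ⟨p, hp⟩ := h1
    refine ⟨{p}, hp.mono fun x hx => ⟨hx.1, hx.2, fun h2 => ?_⟩⟩
    exact hcd x hx.1 (hx.2.trans (show d x = p from h2).symm)
  by_cases h2 : ∃ p, {x | x ∈ D ∧ d x = p}.Infinite
  · obtain ⟨p, hp⟩ := h2
    refine ⟨{p}ᶜ, hp.mono fun x hx => ⟨hx.1, fun h3 => ?_, fun h3 => h3 hx.2⟩⟩
    exact hcd x hx.1 ((show c x = p from h3).trans hx.2.symm)
  push Not at h1 h2
  obtain ⟨f, hf, hf'⟩ := exists_seq_of_forall_finset_exists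
    (fun x : Λ => x ∈ D) (fun x y => x ≠ y ∧ c x ≠ d y ∧ d x ≠ c y) (by
      intro s hs
      have h3 : (⋃ x ∈ s, ({x} ∪ {y | y ∈ D ∧ d y = c x} ∪ {y | y ∈ D ∧ c y = d x})).Finite :=
        s.finite_toSet.biUnion fun x _ =>
          Set.Finite.union (Set.Finite.union (finite_singleton x) (h2 _)) (h1 _)
      obtain ⟨y, hy, hy'⟩ := (Set.Infinite.sdiff hD h3).nonempty
      refine ⟨y, hy, fun x hx => ⟨?_, ?_, ?_⟩⟩
      · rintro rfl
        exact hy' (mem_iUnion₂.2 ⟨x, hx, Or.inl (Or.inl rfl)⟩)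
      · intro h4
        exact hy' (mem_iUnion₂.2 ⟨x, hx, Or.inl (Or.inr ⟨hy, h4.symm⟩)⟩)
      · intro h4
        exact hy' (mem_iUnion₂.2 ⟨x, hx, Or.inr ⟨hy, h4.symm⟩⟩))
  have hinj : Function.Injective f := by
    intro m n hmn
    rcases lt_trichotomy m n with h3 | h3 | h3
    · exact absurd hmn (hf' m n h3).1
    · exact h3
    · exact absurd hmn.symm (hf' n m h3).1
  refine ⟨Set.range fun n => c (f n), (Set.infinite_range_of_injective hinj).mono ?_⟩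
  rintro _ ⟨n, rfl⟩
  refine ⟨hf n, ⟨n, rfl⟩, ?_⟩
  rintro ⟨m, hm⟩
  have hm' : c (f m) = d (f n) := hm
  rcases lt_trichotomy m n with h3 | h3 | h3
  · exact (hf' m n h3).2.1 hm'
  · rw [h3] at hm'
    exact hcd _ (hf n) hm'
  · exact (hf' n m h3).2.2 hm'.symm

/-- the theorem for cardinals above a strong limit cardinal of countable cofinality -/
theorem triv_cells (h : AutPair Φ Ψ) {κ : Cardinal.{u}} (hκ : ℵ₀ < κ) (hκs : κ.IsStrongLimit)
    (hloc : ∀ S' : Set Λ, #S' ≤ κ → Triv Φ ℵ₀ S') {S : Set Λ}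
    {N : Type u} (hN : #N ≤ ℵ₀) {P : N → Type u} (hP : ∀ n, #(P n) < κ) (d : ∀ n, Λ → P n)
    (hd : ∀ x ∈ Φ S, ∀ y ∈ Φ S, (∀ n, d n x = d n y) → x = y) : Triv Φ ℵ₀ S := by
  have hs : Order.succ ℵ₀ ≤ κ := Order.succ_le_of_lt hκ
  let good : N → Λ → Prop := fun n x => ∃ p : P n, ∀ K : Set (P n), x ∈ Ψ (d n ⁻¹' K) ↔ p ∈ K
  -- few points are not good
  have hbad : ∀ n, #{x | x ∈ S ∧ ¬ good n x} ≤ κ := by
    intro n
    by_contra hcon
    rw [not_le] at hcon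
    set b : Cardinal.{u} := max (#(Set (P n))) ℵ₀ with hb
    have hbκ : b < κ := by
      rw [hb, max_lt_iff]
      refine ⟨?_, hκ⟩
      rw [Cardinal.mk_set]
      exact hκs.isStrongPrelimit (hP n)
    have hb0 : ℵ₀ ≤ b := le_max_right _ _
    obtain ⟨S', hS', hS''⟩ := Cardinal.le_mk_iff_exists_subset.1
      ((Order.succ_le_of_lt hbκ).trans hcon.le)
    obtain ⟨Y, f, hY, hf⟩ := hloc S' (hS''.le.trans (Order.succ_le_of_lt hbκ))
    have h1 : #(⋃ K : Set (P n), {x | x ∈ S' \ Y ∧ ¬ (x ∈ Ψ (d n ⁻¹' K) ↔ f x ∈ d n ⁻¹' K)} :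
        Set Λ) ≤ b :=
      mk_iUnion_le' hb0 (le_max_left _ _) fun K => mk_finite_le hb0 (hf.error h _)
    have h2 : #S' ≤ b := by
      refine mk_mono' (mk_union_le' hb0 h1 (hY.trans hb0)) fun x hx => ?_
      by_contra h3
      refine (hS' hx).2 ⟨d n (f x), fun K => ?_⟩
      by_contra h4
      exact h3 (Or.inl (mem_iUnion.2 ⟨K, ⟨hx, fun h5 => h3 (Or.inr h5)⟩, h4⟩))
    rw [hS''] at h2
    exact absurd (Order.lt_succ b) (not_lt.2 h2)
  let Bad : Set Λ := ⋃ n, {x | x ∈ S ∧ ¬ good n x}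
  have hBad : #Bad ≤ κ := mk_iUnion_le' hκ.le (hN.trans hκ.le) hbad
  have hgood : ∀ x ∈ S \ Bad, ∀ n, good n x := by
    intro x hx n
    by_contra h1
    exact hx.2 (mem_iUnion.2 ⟨n, hx.1, h1⟩)
  classical
  let g : Λ → Λ := fun x => if hx : ∃ y ∈ Φ S, ∀ n, ∀ K : Set (P n),
    (x ∈ Ψ (d n ⁻¹' K) ↔ d n y ∈ K) then hx.choose else x
  have hgx : ∀ x y, y ∈ Φ S → (∀ n, ∀ K : Set (P n), (x ∈ Ψ (d n ⁻¹' K) ↔ d n y ∈ K)) →
      g x = y := by
    intro x y hy hxy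
    have hx : ∃ y ∈ Φ S, ∀ n, ∀ K : Set (P n), (x ∈ Ψ (d n ⁻¹' K) ↔ d n y ∈ K) := ⟨y, hy, hxy⟩
    have h1 : g x = hx.choose := dif_pos hx
    rw [h1]
    refine hd _ hx.choose_spec.1 _ hy fun n => ?_
    have h2 := hx.choose_spec.2 n {d n y}
    exact h2.1 ((hxy n {d n y}).2 rfl)
  obtain ⟨X', hX', hX''⟩ := patch h le_rfl (S := S \ Bad) g (by
    intro S' hS' hcard
    obtain ⟨Y, f, hY, hf⟩ := hloc S' (hcard.trans hs)
    refine ⟨Y, f, hY, hf, Cardinal.le_aleph0_iff_set_countable.2 ?_⟩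
    -- the values of `f` outside `Φ S`
    have h1 : {x | x ∈ S' \ Y ∧ f x ∉ Φ S}.Finite := by
      refine hf.finite_of_image h (fun x hx => hx.1) ?_
      have h3 : SF (f '' (S' \ Y)) (Φ S) :=
        (hf _ subset_rfl).2.trans (h.sf (SF.of_subset (sdiff_subset.trans (hS'.trans sdiff_subset))))
      refine Set.Finite.subset h3 ?_
      rintro _ ⟨x, hx, rfl⟩
      exact ⟨⟨x, hx.1, rfl⟩, hx.2⟩
    have h2 : ∀ n, {x | x ∈ S' \ Y ∧ ∃ K : Set (P n), ¬ (x ∈ Ψ (d n ⁻¹' K) ↔ d n (f x) ∈ K)}.Finite := by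
      intro n
      have h3 : ∀ x ∈ S' \ Y, ∃ p : P n, ∀ K : Set (P n), x ∈ Ψ (d n ⁻¹' K) ↔ p ∈ K :=
        fun x hx => hgood x (hS' hx.1) n
      by_contra hinf
      have h4 : ∀ x : Λ, ∃ p : P n, x ∈ S' \ Y → ∀ K : Set (P n), x ∈ Ψ (d n ⁻¹' K) ↔ p ∈ K := by
        intro x
        by_cases hx : x ∈ S' \ Y
        · obtain ⟨p, hp⟩ := h3 x hx
          exact ⟨p, fun _ => hp⟩
        · exact ⟨d n x, fun hx' => absurd hx' hx⟩
      choose c hc using h4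
      have h5 := exists_sep hinf c (fun x => d n (f x)) (by
        rintro x ⟨hx, K, hK⟩ h6
        have h7 : c x = d n (f x) := h6
        refine hK ?_
        rw [← h7]
        exact hc x hx K)
      obtain ⟨K, hK⟩ := h5
      refine hK ((hf.error h (d n ⁻¹' K)).subset ?_)
      rintro x ⟨⟨hx, _⟩, h6, h7⟩
      refine ⟨hx, fun h8 => h7 (h8.1 ((hc x hx K).2 h6))⟩
    have : Countable N := Cardinal.mk_le_aleph0_iff.1 hN
    refine (h1.countable.union (countable_iUnion fun n => (h2 n).countable)).mono fun x hx => ?_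
    by_contra hcon
    refine hx.2 (hgx x (f x) ?_ fun n K => ?_).symm
    · by_contra h3
      exact hcon (Or.inl ⟨hx.1, h3⟩)
    · by_contra h3
      exact hcon (Or.inr (mem_iUnion.2 ⟨n, hx.1, K, h3⟩)))
  have h1 : Triv Φ ℵ₀ (S \ Bad) := ⟨X', g, hX', hX''⟩
  refine (h1.union h le_rfl (hloc Bad hBad)).mono fun x hx => ?_
  by_cases hx' : x ∈ Bad
  · exact Or.inr hx'
  · exact Or.inl ⟨hx, hx'⟩

end CKer
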