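import Mathlib

/-!
# Automorphisms of `P(Λ)/Fin`: the definitions used in the statement
-/

set_option autoImplicit false

namespace CKer

open Set Cardinal

universe u

/-- the Boolean algebra `P(Λ)/Fin`: predicates on `Λ` up to finitely many points, ordered by
implication at all but finitely many points -/
abbrev PFin (Λ : Type u) : Type u := (Filter.cofinite : Filter Λ).Germ Prop

/-- the class of a set -/
def cls {Λ : Type u} (A : Set Λ) : PFin Λ := ((fun x => x ∈ A : Λ → Prop) : PFin Λ)

/-- the automorphism `π` is trivial on `A`: some function `e` satisfies `π [B] = [e[B]]` for all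
subsets `B` of `A` -/
def TrivialOn {Λ : Type u} (π : PFin Λ ≃o PFin Λ) (A : Set Λ) : Prop :=
  ∃ e : Λ → Λ, ∀ B ⊆ A, π (cls B) = cls (e '' B)

/-- `P(Λ)/Fin` has an automorphism which is not trivial on any cocountable set -/
def Nontriv (Λ : Type u) : Prop :=
  ∃ π : PFin Λ ≃o PFin Λ, ∀ A : Set Λ, Aᶜ.Countable → ¬ TrivialOn π A

/-- the sets `A i`, `i : S`, can be decided in such a way that any `ℵ₁` of the decisions are
satisfied by `#S` points of `S`; this holds if `#S` is weakly compact, and if `S` carries an
ultrafilter which is closed under intersections of `ℵ₁` sets and consists of sets of size `#S` -/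
def Decides (S : Type u) : Prop :=
  ∀ A : S → Set S, ∃ E : Set S, ∀ J : Set S, #J ≤ ℵ₁ → #{x | ∀ i ∈ J, (x ∈ A i ↔ i ∈ E)} = #S

/-- the partition property `κ → (κ)²₂` for `κ = #S`: every symmetric relation on `S` has a
homogeneous set of size `#S`; an uncountable cardinal with this property is weakly compact -/
def Arrow (S : Type u) : Prop :=
  ∀ c : S → S → Prop, (∀ x y, c x y → c y x) → ∃ H : Set S, #H = #S ∧
    ((∀ x ∈ H, ∀ y ∈ H, x ≠ y → c x y) ∨ ∀ x ∈ H, ∀ y ∈ H, x ≠ y → ¬ c x y)

end CKer
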