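import Pool.Agent.Lib_MP_3937af_ck.Least
import Pool.Agent.Lib_MP_3937af_ck.Defs

/-!
# Weakly compact cardinals
-/

set_option autoImplicit false

namespace CKer

open Set Cardinal

universe u

variable {Λ : Type u} {Φ Ψ : Set Λ → Set Λ}

theorem Decides.index {S T : Type u} (hS : Decides S) (hT : #T ≤ #S) (A : T → Set S) :
    ∃ E : Set T, ∀ J : Set T, #J ≤ ℵ₁ → #{x | ∀ i ∈ J, (x ∈ A i ↔ i ∈ E)} = #S := by
  obtain ⟨φ⟩ := (Cardinal.le_def _ _).1 hT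
  obtain ⟨E, hE⟩ := hS (fun s => {x | ∃ t, φ t = s ∧ x ∈ A t})
  refine ⟨φ ⁻¹' E, fun J hJ => ?_⟩
  have h1 := hE (φ '' J) ((Cardinal.mk_image_le).trans hJ)
  have h2 : {x | ∀ i ∈ φ '' J, (x ∈ {x | ∃ t, φ t = i ∧ x ∈ A t} ↔ i ∈ E)} =
      {x | ∀ i ∈ J, (x ∈ A i ↔ i ∈ φ ⁻¹' E)} := by
    apply Set.ext
    intro x
    have h3 : ∀ i, x ∈ {x | ∃ t, φ t = φ i ∧ x ∈ A t} ↔ x ∈ A i := by
      intro i
      constructor
      · rintro ⟨t, ht, hx⟩
        rwa [φ.injective ht] at hx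
      · exact fun hx => ⟨i, rfl, hx⟩
    constructor
    · intro hx i hi
      exact (h3 i).symm.trans (hx (φ i) ⟨i, hi, rfl⟩)
    · rintro hx _ ⟨i, hi, rfl⟩
      exact (h3 i).trans (hx i hi)
  rwa [h2] at h1

/-- a well-ordered exhaustion of a type of regular cardinality -/
theorem exists_exhaustion (α : Type u) (hα : ℵ₀ ≤ #α) (hreg : #α ≤ (#α).ord.cof) :
    ∃ Q : α → Set α, (∀ i, i ∈ Q i) ∧ (∀ i, #(Q i) < #α) ∧
      (∀ (T : Set α) (i : α), #T = #α → ∃ j ∈ T, Q i ⊆ Q j) ∧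
      ∀ T : Set α, #T < #α → ∃ i, T ⊆ Q i := by
  obtain ⟨lo, wf, hlo⟩ := Cardinal.exists_ord_eq_type_lt α
  have hQ : ∀ i : α, #(Set.Iic i) < #α := by
    intro i
    have h1 : #(Set.Iio i) < #α := Cardinal.mk_Iio_lt i hlo
    have h2 : Set.Iic i = Set.Iio i ∪ {i} := by
      apply Set.ext
      intro x
      constructor
      · intro hx
        rcases lt_or_eq_of_le (show x ≤ i from hx) with h3 | h3
        · exact Or.inl h3
        · exact Or.inr h3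
      · rintro (h3 | h3)
        · exact le_of_lt h3
        · exact le_of_eq h3
    rw [h2]
    refine lt_of_le_of_lt (Cardinal.mk_union_le _ _) (Cardinal.add_lt_of_lt hα h1 ?_)
    rw [Cardinal.mk_singleton]
    exact (Cardinal.one_lt_aleph0).trans_le hα
  refine ⟨fun i => Set.Iic i, fun i => le_refl i, hQ, fun T i hT => ?_, fun T hT => ?_⟩
  · by_contra hcon
    push Not at hcon
    have h1 : T ⊆ Set.Iic i := by
      intro j hj
      rcases le_total i j with h2 | h2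
      · exact absurd (Set.Iic_subset_Iic.2 h2) (hcon j hj)
      · exact h2
    exact absurd (Cardinal.mk_le_mk_of_subset h1) (not_le.2 (by rw [hT]; exact hQ i))
  · by_contra hcon
    push Not at hcon
    have h1 : IsCofinal T := by
      intro i
      obtain ⟨j, hj, hj'⟩ := Set.not_subset.1 (hcon i)
      exact ⟨j, hj, le_of_lt (not_le.1 hj')⟩
    have h2 := Order.cof_le h1
    rw [hlo, Ordinal.cof_type] at hreg
    exact absurd (hreg.trans h2) (not_le.2 hT)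

/-- the theorem for cardinals with the compactness property `Decides` -/
theorem triv_decides (h : AutPair Φ Ψ) {S : Set Λ} (h1 : ℵ₁ < #S) (hreg : #S ≤ (#S).ord.cof)
    (hmin : ∀ S' : Set Λ, #S' < #S → Triv Φ ℵ₀ S') (hdec : Decides S) : Triv Φ ℵ₀ S := by
  have h0 : ℵ₀ < #S := Cardinal.aleph0_lt_aleph_one.trans h1
  obtain ⟨Q', hQi, hQs, hQc, hQb⟩ := exists_exhaustion S h0.le hreg
  let Q : S → Set Λ := fun i => Subtype.val '' Q' i
  have hQ : ∀ i, Triv Φ ℵ₀ (Q i) := by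
    intro i
    refine hmin _ ?_
    show #(Subtype.val '' Q' i : Set Λ) < #S
    rw [Cardinal.mk_image_eq Subtype.val_injective]
    exact hQs i
  choose X e hX he using hQ
  -- the decisions
  have hT : #(S ⊕ S × S) ≤ #S := by
    rw [Cardinal.mk_sum, Cardinal.mk_prod]
    simp only [Cardinal.lift_id]
    rw [Cardinal.mul_eq_self h0.le, Cardinal.add_eq_self h0.le]
  obtain ⟨E, hE⟩ := hdec.index hT (Sum.elim (fun ξ => {i | (ξ : Λ) ∈ X i})
    (fun p => {i | e i p.1 = e p.2 p.1}))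
  -- the choice of an index satisfying the decisions
  have hpick : ∀ (J : Set (S ⊕ S × S)) (i : S), #J ≤ ℵ₁ → ∃ j : S, Q i ⊆ Q j ∧
      (∀ ξ, Sum.inl ξ ∈ J → ((ξ : Λ) ∈ X j ↔ Sum.inl ξ ∈ E)) ∧
      ∀ p, Sum.inr p ∈ J → (e j p.1 = e p.2 p.1 ↔ Sum.inr p ∈ E) := by
    intro J i hJ
    obtain ⟨j, hj, hj'⟩ := hQc _ i (hE J hJ)
    exact ⟨j, image_mono hj', fun ξ hξ => hj _ hξ, fun p hp => hj _ hp⟩
  let B : Set Λ := {x | ∃ hx : x ∈ S, Sum.inl ⟨x, hx⟩ ∈ E}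
  let N : Set Λ := {x | ∃ hx : x ∈ S, Sum.inl ⟨x, hx⟩ ∉ E ∧ ∀ i, Sum.inr (⟨x, hx⟩, i) ∉ E}
  have hne : Nonempty S := by
    rw [← Cardinal.mk_ne_zero_iff]
    exact (Cardinal.aleph0_pos.trans h0).ne'
  obtain ⟨i0⟩ := hne
  -- few points are in the exceptional sets
  have hB : B.Countable := by
    by_contra hcon
    rw [← Cardinal.le_aleph0_iff_set_countable, not_le, ← Cardinal.aleph_one_le_iff] at hcon
    obtain ⟨C, hCB, hC⟩ := Cardinal.le_mk_iff_exists_subset.1 hcon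
    let J : Set (S ⊕ S × S) := {t | ∃ ξ : S, t = Sum.inl ξ ∧ (ξ : Λ) ∈ C}
    have hJ : #J ≤ ℵ₁ := by
      rw [← hC]
      refine Cardinal.mk_le_of_injective (f := fun t : J => (⟨(t.2.choose : Λ),
        t.2.choose_spec.2⟩ : C)) fun t t' htt' => ?_
      have h4 : ((t.2.choose : S) : Λ) = ((t'.2.choose : S) : Λ) :=
        congrArg (Subtype.val : C → Λ) htt'
      have h2 : t.2.choose = t'.2.choose := Subtype.ext h4
      apply Subtype.ext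
      rw [t.2.choose_spec.1, t'.2.choose_spec.1, h2]
    obtain ⟨j, _, hj, _⟩ := hpick J i0 hJ
    have h2 : C ⊆ X j := by
      intro x hx
      obtain ⟨hxS, hxE⟩ := hCB hx
      exact (hj ⟨x, hxS⟩ ⟨_, rfl, hx⟩).2 hxE
    have h3 := (Cardinal.mk_le_mk_of_subset h2).trans (hX j)
    rw [hC] at h3
    exact absurd Cardinal.aleph0_lt_aleph_one (not_lt.2 h3)
  -- two of the maps differ at finitely many points
  have hdiff : ∀ i j, Q i ⊆ Q j → {x | x ∈ Q i ∧ x ∉ X i ∧ x ∉ X j ∧ e i x ≠ e j x}.Finite := by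
    intro i j hij
    refine (((he i).mono (A := (Q i \ X i) ∩ (Q j \ X j)) inter_subset_left).unique h
      ((he j).mono inter_subset_right)).subset ?_
    rintro x ⟨h2, h3, h4, h5⟩
    exact ⟨⟨⟨h2, h3⟩, hij h2, h4⟩, h5⟩
  have hbdd : ∀ C : Set Λ, C ⊆ S → #C < #S → ∃ i, C ⊆ Q i := by
    intro C hC hC'
    obtain ⟨i, hi⟩ := hQb {x : S | (x : Λ) ∈ C} (by
      refine lt_of_le_of_lt (Cardinal.mk_le_of_injective
        (f := fun x : {x : S | (x : Λ) ∈ C} => (⟨x.1, x.2⟩ : C)) ?_) hC'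
      intro x y hxy
      have h4 : ((x : S) : Λ) = ((y : S) : Λ) := congrArg (Subtype.val : C → Λ) hxy
      exact Subtype.ext (Subtype.ext h4))
    exact ⟨i, fun x hx => ⟨⟨x, hC hx⟩, hi hx, rfl⟩⟩
  have hN : N.Finite := by
    by_contra hinf
    obtain ⟨C, hCN, hCi, hCc⟩ := exists_ctbl hinf
    have hCS : C ⊆ S := fun x hx => (hCN hx).1
    obtain ⟨i1, hi1⟩ := hbdd C hCS ((Cardinal.le_aleph0_iff_set_countable.2 hCc).trans_lt h0)
    let J0 : Set (S ⊕ S × S) := {t | ∃ ξ : S, t = Sum.inl ξ ∧ (ξ : Λ) ∈ C}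
    have hJ0 : #J0 ≤ ℵ₁ := by
      refine le_trans ?_ Cardinal.aleph0_lt_aleph_one.le
      rw [Cardinal.le_aleph0_iff_set_countable]
      refine ((hCc.preimage_of_injOn (f := (Subtype.val : S → Λ))
        Subtype.val_injective.injOn).image Sum.inl).mono ?_
      rintro _ ⟨ξ, rfl, hξ⟩
      exact ⟨ξ, hξ, rfl⟩
    obtain ⟨a, ha, ha1, _⟩ := hpick J0 i1 hJ0
    let J1 : Set (S ⊕ S × S) := J0 ∪ {t | ∃ ξ : S, t = Sum.inr (ξ, a) ∧ (ξ : Λ) ∈ C}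
    have hJ1 : #J1 ≤ ℵ₁ := by
      refine mk_union_le' Cardinal.aleph0_lt_aleph_one.le hJ0 ?_
      refine le_trans ?_ Cardinal.aleph0_lt_aleph_one.le
      rw [Cardinal.le_aleph0_iff_set_countable]
      refine ((hCc.preimage_of_injOn (f := (Subtype.val : S → Λ))
        Subtype.val_injective.injOn).image fun ξ => Sum.inr (ξ, a)).mono ?_
      rintro _ ⟨ξ, rfl, hξ⟩
      exact ⟨ξ, hξ, rfl⟩
    obtain ⟨b, hb, hb1, hb2⟩ := hpick J1 a hJ1
    refine hCi ((hdiff a b hb).subset fun x hx => ?_)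
    obtain ⟨hxS, hx1, hx2⟩ := hCN hx
    refine ⟨ha (hi1 hx), fun h2 => ?_, fun h2 => ?_, fun h2 => ?_⟩
    · exact hx1 ((ha1 ⟨x, hxS⟩ ⟨_, rfl, hx⟩).1 h2)
    · exact hx1 ((hb1 ⟨x, hxS⟩ (Or.inl ⟨_, rfl, hx⟩)).1 h2)
    · exact hx2 a ((hb2 (⟨x, hxS⟩, a) (Or.inr ⟨_, rfl, hx⟩)).1 h2.symm)
  -- the limit map
  classical
  let v : Λ → S := fun x => if hx : ∃ (hx : x ∈ S) (i : S), Sum.inr (⟨x, hx⟩, i) ∈ E then
    hx.choose_spec.choose else i0
  have hv : ∀ x (hx : x ∈ S), (∃ i : S, Sum.inr (⟨x, hx⟩, i) ∈ E) →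
      Sum.inr (⟨x, hx⟩, v x) ∈ E := by
    rintro x hx ⟨i, hi⟩
    have h2 : ∃ (hx : x ∈ S) (i : S), Sum.inr (⟨x, hx⟩, i) ∈ E := ⟨hx, i, hi⟩
    have h3 : v x = h2.choose_spec.choose := dif_pos h2
    rw [h3]
    exact h2.choose_spec.choose_spec
  let g : Λ → Λ := fun x => e (v x) x
  have hg : ∀ i, {x | x ∈ Q i ∧ x ∉ X i ∧ x ∉ B ∧ x ∉ N ∧ e i x ≠ g x}.Finite := by
    intro i
    by_contra hinf
    obtain ⟨C, hCN, hCi, hCc⟩ := exists_ctbl hinf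
    have hCS : C ⊆ S := by
      intro x hx
      obtain ⟨y, _, rfl⟩ := (hCN hx).1
      exact y.2
    let J1 : Set (S ⊕ S × S) := {t | ∃ ξ : S, t = Sum.inl ξ ∧ (ξ : Λ) ∈ C} ∪
      {t | ∃ ξ : S, t = Sum.inr (ξ, v ξ) ∧ (ξ : Λ) ∈ C}
    have hJ1 : #J1 ≤ ℵ₁ := by
      refine le_trans ?_ Cardinal.aleph0_lt_aleph_one.le
      rw [Cardinal.le_aleph0_iff_set_countable]
      have h2 := hCc.preimage_of_injOn (f := (Subtype.val : S → Λ)) Subtype.val_injective.injOn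
      refine ((h2.image Sum.inl).union (h2.image fun ξ : S => Sum.inr (ξ, v ξ))).mono ?_
      rintro t (⟨ξ, rfl, hξ⟩ | ⟨ξ, rfl, hξ⟩)
      · exact Or.inl ⟨ξ, hξ, rfl⟩
      · exact Or.inr ⟨ξ, hξ, rfl⟩
    obtain ⟨b, hb, hb1, hb2⟩ := hpick J1 i hJ1
    refine hCi ((hdiff i b hb).subset fun x hx => ?_)
    obtain ⟨hx1, hx2, hx3, hx4, hx5⟩ := hCN hx
    have hxS := hCS hx
    have hxE : Sum.inl ⟨x, hxS⟩ ∉ E := fun h2 => hx3 ⟨hxS, h2⟩
    have hxv : Sum.inr (⟨x, hxS⟩, v x) ∈ E := by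
      refine hv x hxS ?_
      by_contra h2
      push Not at h2
      exact hx4 ⟨hxS, hxE, h2⟩
    refine ⟨hx1, hx2, fun h2 => ?_, fun h2 => ?_⟩
    · exact hxE ((hb1 ⟨x, hxS⟩ (Or.inl ⟨_, rfl, hx⟩)).1 h2)
    · have h3 : e b x = e (v x) x :=
        (hb2 (⟨x, hxS⟩, v x) (Or.inr ⟨⟨x, hxS⟩, rfl, hx⟩)).2 hxv
      exact hx5 (h2.trans h3)
  obtain ⟨X', hX', hX''⟩ := patch h le_rfl (S := S \ (B ∪ N)) g (by
    intro S' hS' hcd
    rw [Cardinal.succ_aleph0] at hcd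
    obtain ⟨i, hi⟩ := hbdd S' (hS'.trans sdiff_subset) (hcd.trans_lt h1)
    refine ⟨X i, e i, hX i, (he i).mono fun x hx => ⟨hi hx.1, hx.2⟩, mk_finite_le le_rfl ?_⟩
    refine (hg i).subset ?_
    rintro x ⟨⟨hx, hx'⟩, hx''⟩
    exact ⟨hi hx, hx', fun h2 => (hS' hx).2 (Or.inl h2), fun h2 => (hS' hx).2 (Or.inr h2), hx''⟩)
  have h2 : Triv Φ ℵ₀ (S \ (B ∪ N)) := ⟨X', g, hX', hX''⟩
  have h3 : Triv Φ ℵ₀ (B ∪ N) := Triv.of_le h
    (mk_union_le' le_rfl (Cardinal.le_aleph0_iff_set_countable.2 hB) (mk_finite_le le_rfl hN))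
  refine (h2.union h le_rfl h3).mono fun x hx => ?_
  by_cases hx' : x ∈ B ∪ N
  · exact Or.inr hx'
  · exact Or.inl ⟨hx, hx'⟩

end CKer
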