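import Pool.Agent.Lib_MP_3937af_ck.Basic

/-!
# Countable unions modulo small sets
-/

set_option autoImplicit false

namespace CKer

open Set Cardinal

universe u

variable {Λ : Type u}

theorem mk_union_le' {κ : Cardinal.{u}} (hκ : ℵ₀ ≤ κ) {A B : Set Λ} (hA : #A ≤ κ) (hB : #B ≤ κ) :
    #(A ∪ B : Set Λ) ≤ κ :=
  (Cardinal.mk_union_le A B).trans (Cardinal.add_le_of_le hκ hA hB)

theorem mk_iUnion_le' {κ : Cardinal.{u}} (hκ : ℵ₀ ≤ κ) {ι : Type u} (hι : #ι ≤ κ)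
    {A : ι → Set Λ} (hA : ∀ i, #(A i) ≤ κ) : #(⋃ i, A i : Set Λ) ≤ κ :=
  (Cardinal.mk_iUnion_le A).trans ((mul_le_mul' hι (ciSup_le' hA)).trans
    (Cardinal.mul_eq_self hκ).le)

theorem mk_iUnion_nat_le' {κ : Cardinal.{u}} (hκ : ℵ₀ ≤ κ) {A : ℕ → Set Λ}
    (hA : ∀ i, #(A i) ≤ κ) : #(⋃ i, A i : Set Λ) ≤ κ := by
  have h1 : (⋃ i, A i) = ⋃ j : ULift.{u} ℕ, A j.down := by
    ext x
    simp only [mem_iUnion]
    exact ⟨fun ⟨i, hi⟩ => ⟨⟨i⟩, hi⟩, fun ⟨i, hi⟩ => ⟨i.down, hi⟩⟩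
  rw [h1]
  refine mk_iUnion_le' hκ ?_ fun j => hA _
  rw [Cardinal.mk_uLift, Cardinal.mk_nat, Cardinal.lift_aleph0]
  exact hκ

theorem mk_countable_le {κ : Cardinal.{u}} (hκ : ℵ₀ ≤ κ) {A : Set Λ} (hA : A.Countable) :
    #A ≤ κ := (Cardinal.le_aleph0_iff_set_countable.2 hA).trans hκ

theorem mk_finite_le {κ : Cardinal.{u}} (hκ : ℵ₀ ≤ κ) {A : Set Λ} (hA : A.Finite) :
    #A ≤ κ := mk_countable_le hκ hA.countable

theorem mk_mono' {κ : Cardinal.{u}} {A B : Set Λ} (h : #B ≤ κ) (hAB : A ⊆ B) : #A ≤ κ :=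
  (Cardinal.mk_le_mk_of_subset hAB).trans h

/-- equality modulo a set of size at most `κ` -/
def SE (κ : Cardinal.{u}) (A B : Set Λ) : Prop :=
  #(A \ B : Set Λ) ≤ κ ∧ #(B \ A : Set Λ) ≤ κ

theorem EF.se {κ : Cardinal.{u}} (hκ : ℵ₀ ≤ κ) {A B : Set Λ} (h : EF A B) : SE κ A B :=
  ⟨mk_finite_le hκ h.1, mk_finite_le hκ h.2⟩

theorem SE.symm {κ : Cardinal.{u}} {A B : Set Λ} (h : SE κ A B) : SE κ B A := ⟨h.2, h.1⟩

theorem SE.trans {κ : Cardinal.{u}} (hκ : ℵ₀ ≤ κ) {A B C : Set Λ} (h1 : SE κ A B)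
    (h2 : SE κ B C) : SE κ A C := by
  constructor
  · refine mk_mono' (mk_union_le' hκ h1.1 h2.1) fun x hx => ?_
    by_cases hb : x ∈ B
    · exact Or.inr ⟨hb, hx.2⟩
    · exact Or.inl ⟨hx.1, hb⟩
  · refine mk_mono' (mk_union_le' hκ h1.2 h2.2) fun x hx => ?_
    by_cases hb : x ∈ B
    · exact Or.inl ⟨hb, hx.2⟩
    · exact Or.inr ⟨hx.1, hb⟩

theorem SE.compl {κ : Cardinal.{u}} {A B : Set Λ} (h : SE κ A B) : SE κ Aᶜ Bᶜ :=
  ⟨mk_mono' h.2 fun _ hx => ⟨not_not.1 hx.2, hx.1⟩,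
    mk_mono' h.1 fun _ hx => ⟨not_not.1 hx.2, hx.1⟩⟩

theorem SE.iUnion {κ : Cardinal.{u}} (hκ : ℵ₀ ≤ κ) {A B : ℕ → Set Λ} (h : ∀ n, SE κ (A n) (B n)) :
    SE κ (⋃ n, A n) (⋃ n, B n) := by
  constructor
  · refine mk_mono' (mk_iUnion_nat_le' hκ fun n => (h n).1) fun x hx => ?_
    obtain ⟨n, hn⟩ := mem_iUnion.1 hx.1
    exact mem_iUnion.2 ⟨n, hn, fun hb => hx.2 (mem_iUnion.2 ⟨n, hb⟩)⟩
  · refine mk_mono' (mk_iUnion_nat_le' hκ fun n => (h n).2) fun x hx => ?_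
    obtain ⟨n, hn⟩ := mem_iUnion.1 hx.1
    exact mem_iUnion.2 ⟨n, hn, fun hb => hx.2 (mem_iUnion.2 ⟨n, hb⟩)⟩

namespace AutPair

variable {Φ Ψ : Set Λ → Set Λ}

/-- a lifting commutes with countable unions modulo sets of size at most `κ` -/
theorem iUnion (h : AutPair Φ Ψ) {κ : Cardinal.{u}} (hκ : ℵ₀ ≤ κ) (hκ' : κ ^ ℵ₀ = κ)
    (B : ℕ → Set Λ) : SE κ (Φ (⋃ n, B n)) (⋃ n, Φ (B n)) := by
  constructor
  · set E : Set Λ := Φ (⋃ n, B n) \ ⋃ n, Φ (B n) with hE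
    have h1 : SF (Ψ E) (⋃ n, B n) := h.of_psi.1 (SF.of_subset sdiff_subset)
    have h2 : ∀ n, (Ψ E ∩ B n).Finite := by
      intro n
      have h3 : (Ψ E ∩ Ψ (Φ (B n))).Finite := h.swap.inter_finite (by
        rw [hE]
        refine finite_empty.subset ?_
        rintro x ⟨hx, hx'⟩
        exact hx.2 (mem_iUnion.2 ⟨n, hx'⟩))
      refine (Set.Finite.union h3 (h.lr (B n)).2).subset ?_
      rintro x ⟨hx, hx'⟩
      by_cases hx'' : x ∈ Ψ (Φ (B n))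
      · exact Or.inl ⟨hx, hx''⟩
      · exact Or.inr ⟨hx', hx''⟩
    have h3 : (Ψ E).Countable := by
      refine (h1.countable.union (countable_iUnion fun n => (h2 n).countable)).mono ?_
      intro x hx
      by_cases hx' : x ∈ ⋃ n, B n
      · obtain ⟨n, hn⟩ := mem_iUnion.1 hx'
        exact Or.inr (mem_iUnion.2 ⟨n, hx, hn⟩)
      · exact Or.inl ⟨hx, hx'⟩
    have h4 : #(Φ (Ψ E)) ≤ κ := h.small hκ hκ' (mk_countable_le hκ h3)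
    refine mk_mono' (mk_union_le' hκ h4 (mk_finite_le hκ (h.rl E).2)) fun x hx => ?_
    by_cases hx' : x ∈ Φ (Ψ E)
    · exact Or.inl hx'
    · exact Or.inr ⟨hx, hx'⟩
  · refine mk_mono' (mk_iUnion_nat_le' hκ fun n => mk_finite_le hκ
      (h.sf (SF.of_subset (subset_iUnion B n)))) fun x hx => ?_
    obtain ⟨n, hn⟩ := mem_iUnion.1 hx.1
    exact mem_iUnion.2 ⟨n, hn, hx.2⟩

end AutPair

/-- the set of points whose pattern in the sequence `a` agrees with some row of `s` -/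
def ZZ (a : ℕ → Set Λ) (s : ℕ → ℕ → Prop) : Set Λ := {x | ∃ k, ∀ n, (x ∈ a n ↔ s k n)}

/-- the points of `A` at which membership disagrees with `p` -/
def dis (p : Prop) (A : Set Λ) : Set Λ := {x | ¬ (x ∈ A ↔ p)}

theorem ZZ_eq (a : ℕ → Set Λ) (s : ℕ → ℕ → Prop) :
    ZZ a s = ⋃ k, (⋃ n, dis (s k n) (a n))ᶜ := by
  ext x
  simp only [ZZ, dis, mem_iUnion, mem_compl_iff, mem_ofPred_eq, not_exists, not_not]

theorem AutPair.dis {Φ Ψ : Set Λ → Set Λ} (h : AutPair Φ Ψ) (p : Prop) (A : Set Λ) :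
    EF (Φ (dis p A)) (dis p (Φ A)) := by
  by_cases hp : p
  · have h1 : ∀ B : Set Λ, CKer.dis p B = Bᶜ := by
      intro B; ext x; simp [CKer.dis, hp]
    rw [h1, h1]
    exact h.compl A
  · have h1 : ∀ B : Set Λ, CKer.dis p B = B := by
      intro B; ext x; simp [CKer.dis, hp]
    rw [h1, h1]
    exact EF.refl _

theorem AutPair.zz {Φ Ψ : Set Λ → Set Λ} (h : AutPair Φ Ψ) {κ : Cardinal.{u}} (hκ : ℵ₀ ≤ κ)
    (hκ' : κ ^ ℵ₀ = κ) (a : ℕ → Set Λ) (s : ℕ → ℕ → Prop) :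
    SE κ (Φ (ZZ a s)) (ZZ (fun n => Φ (a n)) s) := by
  rw [ZZ_eq, ZZ_eq]
  refine (h.iUnion hκ hκ' _).trans hκ (SE.iUnion hκ fun k => ?_)
  refine ((h.compl _).se hκ).trans hκ (SE.compl ?_)
  refine (h.iUnion hκ hκ' _).trans hκ (SE.iUnion hκ fun n => ?_)
  exact (h.dis _ _).se hκ

end CKer
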