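import Pool.Agent.Lib_MP_3937af_ck.Kato
import Pool.Agent.Lib_MP_3937af_ck.Arrow

/-!
# Automorphisms of `P(Λ)/Fin` and the main theorem
-/

set_option autoImplicit false

namespace CKer

open Set Cardinal

universe u

variable {Λ : Type u}

theorem cls_le {A B : Set Λ} : cls A ≤ cls B ↔ SF A B := by
  unfold cls
  rw [Filter.Germ.coe_le]
  show (∀ᶠ x in Filter.cofinite, x ∈ A → x ∈ B) ↔ _
  rw [Filter.eventually_cofinite]
  have h1 : {x | ¬ (x ∈ A → x ∈ B)} = A \ B := by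
    ext x
    constructor
    · intro h
      exact Classical.not_imp.1 h
    · intro h
      exact Classical.not_imp.2 h
  rw [h1]
  rfl

theorem cls_eq {A B : Set Λ} : cls A = cls B ↔ EF A B := by
  rw [le_antisymm_iff, cls_le, cls_le]
  rfl

theorem exists_rep (q : PFin Λ) : ∃ A : Set Λ, cls A = q := by
  induction q using Filter.Germ.inductionOn with
  | h f => exact ⟨{x | f x}, rfl⟩

/-- a representative -/
noncomputable def rep (q : PFin Λ) : Set Λ := (exists_rep q).choose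

theorem cls_rep (q : PFin Λ) : cls (rep q) = q := (exists_rep q).choose_spec

theorem rep_cls (A : Set Λ) : EF (rep (cls A)) A := cls_eq.1 (cls_rep _)

theorem pair_of_iso (π : PFin Λ ≃o PFin Λ) :
    AutPair (fun A => rep (π (cls A))) (fun A => rep (π.symm (cls A))) := by
  refine ⟨fun A B => ?_, fun A B => ?_, fun A => ?_, fun A => ?_⟩
  · rw [← cls_le, cls_rep, cls_rep, π.le_iff_le, cls_le]
  · rw [← cls_le, cls_rep, cls_rep, π.symm.le_iff_le, cls_le]
  · rw [← cls_eq, cls_rep, cls_rep, π.symm_apply_apply]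
  · rw [← cls_eq, cls_rep, cls_rep, π.apply_symm_apply]

theorem trivialOn_iff (π : PFin Λ ≃o PFin Λ) (A : Set Λ) :
    TrivialOn π A ↔ ∃ e : Λ → Λ, Impl (fun A => rep (π (cls A))) e A := by
  unfold TrivialOn Impl
  refine exists_congr fun e => forall_congr' fun B => forall_congr' fun _ => ?_
  rw [← cls_eq, cls_rep]

/-- the automorphism given by a pair of liftings -/
noncomputable def isoOf {Φ Ψ : Set Λ → Set Λ} (h : AutPair Φ Ψ) : PFin Λ ≃o PFin Λ where
  toFun q := cls (Φ (rep q))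
  invFun q := cls (Ψ (rep q))
  left_inv q := by
    show cls (Ψ (rep (cls (Φ (rep q))))) = q
    conv_rhs => rw [← cls_rep q]
    rw [cls_eq]
    exact (h.swap.ef (rep_cls _)).trans (h.lr _)
  right_inv q := by
    show cls (Φ (rep (cls (Ψ (rep q))))) = q
    conv_rhs => rw [← cls_rep q]
    rw [cls_eq]
    exact (h.ef (rep_cls _)).trans (h.rl _)
  map_rel_iff' {p q} := by
    show cls (Φ (rep p)) ≤ cls (Φ (rep q)) ↔ p ≤ q
    rw [cls_le, h.le, ← cls_le, cls_rep, cls_rep]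

theorem isoOf_cls {Φ Ψ : Set Λ → Set Λ} (h : AutPair Φ Ψ) (A : Set Λ) :
    isoOf h (cls A) = cls (Φ A) := by
  show cls (Φ (rep (cls A))) = cls (Φ A)
  rw [cls_eq]
  exact h.ef (rep_cls A)

theorem nontriv_iff : Nontriv Λ ↔ NTp Λ := by
  constructor
  · rintro ⟨π, hπ⟩
    exact ⟨_, _, pair_of_iso π, fun A hA hcon => hπ A hA ((trivialOn_iff π A).2 hcon)⟩
  · rintro ⟨Φ, Ψ, h, h'⟩
    refine ⟨isoOf h, fun A hA hcon => h' A hA ?_⟩
    obtain ⟨e, he⟩ := hcon
    refine ⟨e, fun B hB => ?_⟩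
    rw [← cls_eq, ← isoOf_cls h]
    exact he B hB

theorem trivialOn_of (π : PFin Λ ≃o PFin Λ) {S X : Set Λ} (hX : X.Countable)
    (h : TrivialOn π (S \ X)) : Triv (fun A => rep (π (cls A))) ℵ₀ S := by
  obtain ⟨e, he⟩ := (trivialOn_iff π _).1 h
  exact ⟨X, e, Cardinal.le_aleph0_iff_set_countable.2 hX, he⟩

theorem local_form (π : PFin Λ ≃o PFin Λ) (hπ : ∀ A : Set Λ, Aᶜ.Countable → ¬ TrivialOn π A) :
    ∃ S : Set Λ, (#S = ℵ₁ ∨ (#S).IsInaccessible ∧ ¬ Arrow S ∧ ¬ Decides S) ∧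
      (∀ X : Set Λ, X.Countable → ¬ TrivialOn π (S \ X)) ∧ Nontriv S := by
  have h1 : ¬ Triv (fun A => rep (π (cls A))) ℵ₀ Set.univ := by
    rintro ⟨X, e, hX, he⟩
    refine hπ Xᶜ ?_ ((trivialOn_iff π _).2 ⟨e, he.mono fun x hx => ⟨trivial, hx⟩⟩)
    rw [compl_compl]
    exact Cardinal.le_aleph0_iff_set_countable.1 hX
  obtain ⟨S, hS, hS', hS''⟩ := main_local (pair_of_iso π) h1
  refine ⟨S, ?_, fun X hX h => hS' (trivialOn_of π hX h), nontriv_iff.2 hS''⟩
  rcases hS with hS | ⟨hS, hS2⟩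
  · exact Or.inl hS
  · exact Or.inr ⟨hS, fun h => hS2 (h.decides hS), hS2⟩

theorem transfer {Λ Λ' : Type u} (h : Nontriv Λ)
    (hΛ : ∀ S : Set Λ, (#S).IsInaccessible → Arrow S ∨ Decides S) (hΛ' : ℵ₀ < #Λ') :
    Nontriv Λ' := by
  obtain ⟨π, hπ⟩ := h
  obtain ⟨S, hS, _, hS'⟩ := local_form π hπ
  rcases hS with hS | ⟨hS, hS2, hS3⟩
  · rw [nontriv_iff] at hS' ⊢
    exact hS'.up (hS.le.trans (Cardinal.aleph_one_le_iff.2 hΛ'))
  · rcases hΛ S hS with h1 | h1
    · exact absurd h1 hS2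
    · exact absurd h1 hS3

end CKer
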