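import Pool.Agent.Lib_MP_3937af_ck.Move
import Pool.Agent.Lib_MP_3937af_ck.Compact

/-!
# Images of sets of size at most `ℵ₁`
-/

set_option autoImplicit false

namespace CKer

open Set Cardinal

universe u

/-- there is a pair of liftings not induced by a map on any cocountable set -/
def NTp (Λ : Type u) : Prop :=
  ∃ Φ Ψ : Set Λ → Set Λ, AutPair Φ Ψ ∧ ∀ A : Set Λ, Aᶜ.Countable → ¬ ∃ e : Λ → Λ, Impl Φ e A

theorem NTp.up {Λ Λ' : Type u} (h : NTp Λ) (hΛ : #Λ ≤ #Λ') : NTp Λ' := by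
  obtain ⟨Φ, Ψ, h1, h2⟩ := h
  obtain ⟨j⟩ := (Cardinal.le_def _ _).1 hΛ
  refine ⟨ext Φ j, ext Ψ j, ext_pair h1 j.injective, fun A hA hcon => ?_⟩
  obtain ⟨e, he⟩ := hcon
  refine h2 (j ⁻¹' A) ?_ (ext_impl h1 j.injective he)
  rw [← preimage_compl]
  exact hA.preimage_of_injOn j.injective.injOn

variable {Λ : Type u} {Φ Ψ : Set Λ → Set Λ}

theorem countable_iff {S : Set Λ} : S.Countable ↔ #S < ℵ₁ := by
  rw [Cardinal.lt_aleph_one_iff, Cardinal.le_aleph0_iff_set_countable]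

theorem SF.inter_inter {A B C : Set Λ} (h : SF A B) : SF (A ∩ C) (B ∩ C) :=
  Set.Finite.subset h fun _ hx => ⟨hx.1.1, fun h1 => hx.2 ⟨h1, hx.1.2⟩⟩

theorem SF.union_union {A B C D : Set Λ} (h1 : SF A B) (h2 : SF C D) : SF (A ∪ C) (B ∪ D) :=
  (h1.mono subset_rfl subset_union_left).union (h2.mono subset_rfl subset_union_right)

theorem EF.inter_inter {A B C : Set Λ} (h : EF A B) : EF (A ∩ C) (B ∩ C) :=
  ⟨h.1.inter_inter, h.2.inter_inter⟩

theorem EF.inter_of_sf {A B : Set Λ} (h : SF A B) : EF (A ∩ B) A :=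
  ⟨SF.of_subset inter_subset_left, SF.inter (SF.refl A) h⟩

theorem pair_of_mono (h1 : ∀ A B, SF A B → SF (Φ A) (Φ B)) (h2 : ∀ A, EF (Φ (Φ A)) A) :
    AutPair Φ Φ := by
  have h3 : ∀ A B, SF (Φ A) (Φ B) ↔ SF A B := fun A B =>
    ⟨fun h => (h2 A).2.trans ((h1 _ _ h).trans (h2 B).1), h1 A B⟩
  exact ⟨h3, h3, h2, h2⟩

/-- the automorphism exchanging `S` and `T = Φ S` -/
def sw (Φ Ψ : Set Λ → Set Λ) (S T A : Set Λ) : Set Λ :=
  (Φ (A ∩ S) ∩ T ∪ Ψ (A ∩ T) ∩ S) ∪ A ∩ (S ∪ T)ᶜ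

theorem sw_S {S T : Set Λ} (hd : S ∩ T = ∅) (A : Set Λ) :
    sw Φ Ψ S T A ∩ S = Ψ (A ∩ T) ∩ S := by
  rw [Set.eq_empty_iff_forall_notMem] at hd
  apply Set.ext
  intro x
  constructor
  · rintro ⟨(h1 | h1) | h1, h2⟩
    · exact absurd ⟨h2, h1.2⟩ (hd x)
    · exact h1
    · exact absurd (Or.inl h2) h1.2
  · exact fun h1 => ⟨Or.inl (Or.inr h1), h1.2⟩

theorem sw_T {S T : Set Λ} (hd : S ∩ T = ∅) (A : Set Λ) :
    sw Φ Ψ S T A ∩ T = Φ (A ∩ S) ∩ T := by
  rw [Set.eq_empty_iff_forall_notMem] at hd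
  apply Set.ext
  intro x
  constructor
  · rintro ⟨(h1 | h1) | h1, h2⟩
    · exact h1
    · exact absurd ⟨h1.2, h2⟩ (hd x)
    · exact absurd (Or.inr h2) h1.2
  · exact fun h1 => ⟨Or.inl (Or.inl h1), h1.2⟩

theorem sw_C {S T : Set Λ} (A : Set Λ) :
    sw Φ Ψ S T A ∩ (S ∪ T)ᶜ = A ∩ (S ∪ T)ᶜ := by
  apply Set.ext
  intro x
  constructor
  · rintro ⟨(h1 | h1) | h1, h2⟩
    · exact absurd (Or.inr h1.2) h2
    · exact absurd (Or.inl h1.2) h2
    · exact h1
  · exact fun h1 => ⟨Or.inr h1, h1.2⟩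

theorem sw_pair (h : AutPair Φ Ψ) {S T : Set Λ} (hd : S ∩ T = ∅) (hST : EF (Φ S) T) :
    AutPair (sw Φ Ψ S T) (sw Φ Ψ S T) := by
  have hTS : EF (Ψ T) S := ⟨h.of_psi.1 hST.2, h.to_psi.1 hST.1⟩
  refine pair_of_mono (fun A B hAB => ?_) fun A => ?_
  · exact SF.union_union (SF.union_union (h.sf hAB.inter_inter).inter_inter
      (h.swap.sf hAB.inter_inter).inter_inter) hAB.inter_inter
  · have h1 : EF (Φ (Ψ (A ∩ T) ∩ S) ∩ T) (A ∩ T) := by
      have h2 : SF (Ψ (A ∩ T)) S := (h.swap.sf (SF.of_subset inter_subset_right)).trans hTS.1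
      have h3 : EF (Φ (Ψ (A ∩ T) ∩ S)) (A ∩ T) := (h.ef (EF.inter_of_sf h2)).trans (h.rl _)
      have h4 := h3.inter_inter (C := T)
      rwa [inter_assoc, inter_self] at h4
    have h2 : EF (Ψ (Φ (A ∩ S) ∩ T) ∩ S) (A ∩ S) := by
      have h2 : SF (Φ (A ∩ S)) T := (h.sf (SF.of_subset inter_subset_right)).trans hST.1
      have h3 : EF (Ψ (Φ (A ∩ S) ∩ T)) (A ∩ S) := (h.swap.ef (EF.inter_of_sf h2)).trans (h.lr _)
      have h4 := h3.inter_inter (C := S)
      rwa [inter_assoc, inter_self] at h4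
    have h3 : EF (sw Φ Ψ S T (sw Φ Ψ S T A)) ((A ∩ T ∪ A ∩ S) ∪ A ∩ (S ∪ T)ᶜ) := by
      have h4 : sw Φ Ψ S T (sw Φ Ψ S T A) =
          (Φ (Ψ (A ∩ T) ∩ S) ∩ T ∪ Ψ (Φ (A ∩ S) ∩ T) ∩ S) ∪ A ∩ (S ∪ T)ᶜ := by
        conv_lhs => rw [sw]
        rw [sw_S hd, sw_T hd, sw_C]
      rw [h4]
      exact (h1.union h2).union (EF.refl _)
    have h5 : (A ∩ T ∪ A ∩ S) ∪ A ∩ (S ∪ T)ᶜ = A := by
      rw [← inter_union_distrib_left, ← inter_union_distrib_left, union_comm T S,
        union_compl_self, inter_univ]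
    rwa [h5] at h3

/-- if `Φ` maps a countable set to an uncountable set, there is an automorphism of `P(ω₁)/Fin`
which is not trivial on any cocountable set -/
theorem countable_image (h : AutPair Φ Ψ) (hN : ∀ X : Type u, #X ≤ ℵ₁ → ¬ NTp X) {S : Set Λ}
    (hS : S.Countable) : (Φ S).Countable := by
  by_contra hcon
  have h1 : ¬ (Φ S \ S).Countable := fun h2 =>
    hcon ((h2.union hS).mono fun x hx => by
      by_cases hx' : x ∈ S
      · exact Or.inr hx'
      · exact Or.inl ⟨hx, hx'⟩)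
  rw [countable_iff, not_lt] at h1
  obtain ⟨T, hT, hT'⟩ := Cardinal.le_mk_iff_exists_subset.1 h1
  have hTu : ¬ T.Countable := by
    rw [countable_iff, not_lt]
    exact hT'.ge
  set S' : Set Λ := Ψ T ∩ S with hS'
  have hS'c : S'.Countable := hS.mono inter_subset_right
  have h2 : SF (Ψ T) S := h.of_psi.1 (SF.of_subset (hT.trans sdiff_subset))
  have hST : EF (Φ S') T := (h.ef (EF.inter_of_sf h2)).trans (h.rl T)
  have hd : S' ∩ T = ∅ := by
    rw [Set.eq_empty_iff_forall_notMem]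
    exact fun x hx => (hT hx.2).2 hx.1.2
  have hTS : EF (Ψ T) S' := ⟨h.of_psi.1 hST.2, h.to_psi.1 hST.1⟩
  have hsw := sw_pair h hd hST
  let j : (S' ∪ T : Set Λ) → Λ := Subtype.val
  have hj : Function.Injective j := Subtype.val_injective
  have hjr : range j = S' ∪ T := Subtype.range_val
  have hsj : EF (sw Φ Ψ S' T (range j)) (range j) := by
    rw [hjr, sw, inter_eq_right.2 (subset_union_left : S' ⊆ S' ∪ T),
      inter_eq_right.2 (subset_union_right : T ⊆ S' ∪ T), inter_compl_self, union_empty,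
      union_comm S' T]
    refine EF.union ?_ ?_
    · have h3 := hST.inter_inter (C := T)
      rwa [inter_self] at h3
    · have h3 := hTS.inter_inter (C := S')
      rwa [inter_self] at h3
  have hcard : #(S' ∪ T : Set Λ) ≤ ℵ₁ :=
    mk_union_le' Cardinal.aleph0_lt_aleph_one.le
      (mk_countable_le Cardinal.aleph0_lt_aleph_one.le hS'c) hT'.le
  refine hN _ hcard ⟨_, _, rest_pair hsw hj hj hsj, fun A hA hcon' => ?_⟩
  obtain ⟨e1, he1⟩ := hcon'
  obtain ⟨e, he⟩ := rest_impl hsw hj hsj.1 he1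
  have h3 : (T \ (j '' A)).Countable := by
    refine (hA.image j).mono ?_
    rintro x ⟨hx, hx'⟩
    exact ⟨⟨x, Or.inr hx⟩, fun h4 => hx' ⟨_, h4, rfl⟩, rfl⟩
  have h4 : ¬ (T ∩ (j '' A)).Countable := fun h5 =>
    hTu ((h5.union h3).mono fun x hx => by
      by_cases hx' : x ∈ j '' A
      · exact Or.inl ⟨hx, hx'⟩
      · exact Or.inr ⟨hx, hx'⟩)
  refine h4 ?_
  set T1 : Set Λ := T ∩ (j '' A) with hT1
  have h5 : SF (e '' T1) S' := by
    refine (he T1 inter_subset_right).2.trans ?_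
    have h6 : T1 ∩ S' = ∅ := by
      rw [Set.eq_empty_iff_forall_notMem] at hd ⊢
      exact fun x hx => hd x ⟨hx.2, hx.1.1⟩
    have h7 : T1 ∩ (S' ∪ T)ᶜ = ∅ := by
      rw [Set.eq_empty_iff_forall_notMem]
      exact fun x hx => hx.2 (Or.inr hx.1.1)
    rw [sw, h6, h7, union_empty]
    refine SF.union (Set.Finite.subset h.empty fun x hx => hx.1.1) ?_
    exact SF.of_subset inter_subset_right
  have h6 : {x | x ∈ T1 ∧ e x ∉ S'}.Finite := by
    refine he.finite_of_image hsw (fun x hx => hx.1.2) (Set.Finite.subset h5 ?_)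
    rintro _ ⟨x, hx, rfl⟩
    exact ⟨⟨x, hx.1, rfl⟩, hx.2⟩
  have h7 : (⋃ s ∈ S', {x | x ∈ j '' A ∧ e x = s}).Countable :=
    hS'c.biUnion fun s _ => (he.fiber hsw s).countable
  refine (h6.countable.union h7).mono fun x hx => ?_
  by_cases hx' : e x ∈ S'
  · exact Or.inr (mem_iUnion₂.2 ⟨e x, hx', hx.2, rfl⟩)
  · exact Or.inl ⟨hx, hx'⟩

/-- if countable sets are mapped to countable sets, then the image of an uncountable set is not
larger than the set -/
theorem card_image (h : AutPair Φ Ψ) (hc : ∀ S : Set Λ, S.Countable → (Φ S).Countable)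
    (μ : Cardinal.{u}) : ∀ S : Set Λ, #S = μ → #(Φ S) ≤ max μ ℵ₀ := by
  induction μ using Cardinal.lt_wf.induction with
  | _ μ ih =>
    intro S hS
    rcases le_or_gt μ ℵ₀ with hμ | hμ
    · refine le_trans (Cardinal.le_aleph0_iff_set_countable.2 (hc S ?_)) (le_max_right _ _)
      rw [← Cardinal.le_aleph0_iff_set_countable, hS]
      exact hμ
    refine le_trans ?_ (le_max_left _ _)
    obtain ⟨I, Q, hI, hch, hcov, hQ⟩ := exists_cover S (by rw [hS]; exact hμ.le)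
    have hQ' : ∀ i, #(Subtype.val '' Q i : Set Λ) < μ := by
      intro i
      rw [Cardinal.mk_image_eq Subtype.val_injective, ← hS]
      exact hQ i
    let U : Set Λ := ⋃ i, Φ (Subtype.val '' Q i)
    have hU : #U ≤ μ := by
      refine mk_iUnion_le' hμ.le ?_ fun i => ?_
      · rw [hI, hS]
        exact Ordinal.cof_ord_le μ
      · refine (ih _ (hQ' i) _ rfl).trans ?_
        rw [max_le_iff]
        exact ⟨(hQ' i).le, hμ.le⟩
    have h1 : SF (Ψ (Φ S \ U)) S := h.of_psi.1 (SF.of_subset sdiff_subset)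
    have h2 : (Ψ (Φ S \ U) ∩ S).Countable := by
      refine chain_countable (I := I) (Q := fun i => Subtype.val '' Q i) ?_ ?_ fun i => ?_
      · intro i j
        rcases hch i j with h3 | h3
        · exact Or.inl (image_mono h3)
        · exact Or.inr (image_mono h3)
      · intro x hx
        obtain ⟨i, hi⟩ := hcov ⟨x, hx.2⟩
        exact ⟨i, ⟨x, hx.2⟩, hi, rfl⟩
      · have h3 : (Ψ (Φ S \ U) ∩ Ψ (Φ (Subtype.val '' Q i))).Finite :=
          h.swap.inter_finite (finite_empty.subset fun x hx =>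
            hx.1.2 (mem_iUnion.2 ⟨i, hx.2⟩))
        refine (Set.Finite.union h3 (h.lr (Subtype.val '' Q i)).2).subset ?_
        rintro x ⟨⟨hx, _⟩, hx'⟩
        by_cases h4 : x ∈ Ψ (Φ (Subtype.val '' Q i))
        · exact Or.inl ⟨hx, h4⟩
        · exact Or.inr ⟨hx', h4⟩
    have h3 : (Ψ (Φ S \ U)).Countable := (h1.countable.union h2).mono fun x hx => by
      by_cases hx' : x ∈ S
      · exact Or.inr ⟨hx, hx'⟩
      · exact Or.inl ⟨hx, hx'⟩
    have h4 : (Φ S \ U).Countable :=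
      ((h.rl (Φ S \ U)).2.countable.union (hc _ h3)).mono fun x hx => by
        by_cases hx' : x ∈ Φ (Ψ (Φ S \ U))
        · exact Or.inr hx'
        · exact Or.inl ⟨hx, hx'⟩
    refine mk_mono' (mk_union_le' hμ.le hU (mk_countable_le hμ.le h4)) fun x hx => ?_
    by_cases hx' : x ∈ U
    · exact Or.inl hx'
    · exact Or.inr ⟨hx, hx'⟩

/-- if the automorphism is not trivial on the complement of any countable set, then it is not
trivial on `S \ X` for any countable `X`, for some set `S` of size `ℵ₁` or of inaccessible, not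
weakly compact size, and `P(S)/Fin` has an automorphism which is not trivial on any cocountable
set -/
theorem main_local (h : AutPair Φ Ψ) (hnt : ¬ Triv Φ ℵ₀ Set.univ) :
    ∃ S : Set Λ, (#S = ℵ₁ ∨ (#S).IsInaccessible ∧ ¬ Decides S) ∧ ¬ Triv Φ ℵ₀ S ∧ NTp S := by
  obtain ⟨μ, ⟨S, hS, hSnt⟩, hμ⟩ := Cardinal.lt_wf.has_min
    {μ : Cardinal.{u} | ∃ S : Set Λ, #S = μ ∧ ¬ Triv Φ ℵ₀ S} ⟨_, Set.univ, rfl, hnt⟩
  have hmin : ∀ S' : Set Λ, #S' < #S → Triv Φ ℵ₀ S' := by
    intro S' hS'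
    by_contra h1
    rw [hS] at hS'
    exact hμ _ ⟨S', rfl, h1⟩ hS'
  have h1 : #S = ℵ₁ ∨ (#S).IsInaccessible ∧ ¬ Decides S := by
    rcases least h hmin hSnt with h1 | h1
    · exact Or.inl h1
    · refine Or.inr ⟨h1, fun hdec => hSnt (triv_decides h ?_ h1.isRegular.2 hmin hdec)⟩
      rw [← Cardinal.succ_aleph0]
      exact h1.isSuccLimit.succ_lt h1.aleph0_lt
  have h0 : ℵ₀ < #S := by
    rw [← not_le]
    exact fun h1 => hSnt (Triv.of_le h h1)
  refine ⟨S, h1, hSnt, ?_⟩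
  by_cases hN : ∃ X : Type u, #X ≤ ℵ₁ ∧ NTp X
  · obtain ⟨X, hX, hX'⟩ := hN
    exact hX'.up (hX.trans (Cardinal.aleph_one_le_iff.2 h0))
  push Not at hN
  have hc : ∀ S : Set Λ, S.Countable → (Φ S).Countable := fun S hS => countable_image h hN hS
  have hc' : ∀ S : Set Λ, S.Countable → (Ψ S).Countable := fun S hS =>
    countable_image h.swap hN hS
  have hle : #(Φ S) ≤ #S := by
    have h2 := card_image h hc (#S) S rfl
    rwa [max_eq_left h0.le] at h2
  have hge : #S ≤ #(Φ S) := by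
    by_contra hcon
    rw [not_le] at hcon
    have h2 := card_image h.swap hc' (#(Φ S)) (Φ S) rfl
    have h3 : max (#(Φ S)) ℵ₀ < #S := max_lt hcon h0
    have h4 : #S ≤ max (#(Φ S)) ℵ₀ := by
      refine mk_mono' (mk_union_le' (le_max_right _ _) h2
        (mk_finite_le (le_max_right _ _) (h.lr S).2)) fun x hx => ?_
      by_cases hx' : x ∈ Ψ (Φ S)
      · exact Or.inl hx'
      · exact Or.inr ⟨hx, hx'⟩
    exact absurd h4 (not_le.2 h3)
  obtain ⟨E⟩ := Cardinal.eq.1 (le_antisymm hge hle)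
  let j : S → Λ := Subtype.val
  let g : S → Λ := fun x => (E x : Λ)
  have hj : Function.Injective j := Subtype.val_injective
  have hg : Function.Injective g := Subtype.val_injective.comp E.injective
  have hjr : range j = S := Subtype.range_val
  have hgr : range g = Φ S := by
    have h4 : g = Subtype.val ∘ E := rfl
    rw [h4, range_comp, E.surjective.range_eq, image_univ, Subtype.range_val]
  have hgj : EF (Φ (range j)) (range g) := by
    rw [hjr, hgr]
    exact EF.refl _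
  refine ⟨_, _, rest_pair h hj hg hgj, fun A hA hcon => hSnt ?_⟩
  obtain ⟨e1, he1⟩ := hcon
  obtain ⟨e2, he2⟩ := rest_impl h hj hgj.1 he1
  refine ⟨j '' Aᶜ, e2, Cardinal.le_aleph0_iff_set_countable.2 (hA.image j),
    he2.mono fun x hx => ?_⟩
  by_contra h4
  exact hx.2 ⟨⟨x, hx.1⟩, fun h5 => h4 ⟨_, h5, rfl⟩, rfl⟩

end CKer
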