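import Pool.Agent.Lib_MP_3937af_ck.Cells

/-!
# The least cardinality of a set on which an automorphism is nontrivial
-/

set_option autoImplicit false

namespace CKer

open Set Cardinal

universe u

variable {Λ : Type u} {Φ Ψ : Set Λ → Set Λ}

/-- a strong limit cardinal of uncountable cofinality satisfies `κ ^ ℵ₀ = κ` -/
theorem power_eq {κ : Cardinal.{u}} (hκ : κ.IsStrongLimit) (hc : ℵ₀ < κ.ord.cof) :
    κ ^ ℵ₀ = κ := by
  have h0 : ℵ₀ ≤ κ := hκ.aleph0_le
  have h1 : #(κ.out × ULift.{u} ℕ) = κ := by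
    rw [Cardinal.mk_prod, Cardinal.lift_id, Cardinal.lift_id, Cardinal.mk_out, Cardinal.mk_uLift,
      Cardinal.mk_nat, Cardinal.lift_aleph0]
    exact Cardinal.mul_aleph0_eq h0
  have h2 := Cardinal.mk_subset_mk_lt_cof (α := κ.out × ULift.{u} ℕ) (by
    rw [h1]
    exact hκ.isStrongPrelimit)
  rw [h1] at h2
  refine le_antisymm ?_ (Cardinal.self_le_power κ Cardinal.one_le_aleph0)
  have h3 : κ ^ ℵ₀ = #(ℕ → κ.out) := by
    rw [Cardinal.mk_arrow, Cardinal.mk_nat, Cardinal.lift_aleph0, Cardinal.lift_id',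
      Cardinal.mk_out]
  rw [h3]
  refine le_trans ?_ h2.le
  refine Cardinal.mk_le_of_injective (f := fun f : ℕ → κ.out =>
    (⟨Set.range fun n => (f n, ULift.up n), ?_⟩ :
      {s : Set (κ.out × ULift.{u} ℕ) // #s < κ.ord.cof})) ?_
  · exact (Cardinal.le_aleph0_iff_set_countable.2 (countable_range _)).trans_lt hc
  · intro f g hfg
    have h4 : (Set.range fun n => (f n, ULift.up.{u} n)) = Set.range fun n => (g n, ULift.up n) :=
      congrArg Subtype.val hfg
    funext n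
    have h5 : (f n, ULift.up.{u} n) ∈ Set.range fun n => (g n, ULift.up.{u} n) := by
      rw [← h4]
      exact ⟨n, rfl⟩
    obtain ⟨m, hm⟩ := h5
    have h6 := Prod.mk.inj hm
    have h7 : m = n := congrArg ULift.down h6.2
    rw [← h6.1, h7]

/-- if the automorphism is trivial modulo countable sets on all sets smaller than `S`, but not on
`S`, then `S` has size `ℵ₁` or its size is inaccessible -/
theorem least (h : AutPair Φ Ψ) {S : Set Λ} (hmin : ∀ S' : Set Λ, #S' < #S → Triv Φ ℵ₀ S')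
    (hnt : ¬ Triv Φ ℵ₀ S) : #S = ℵ₁ ∨ (#S).IsInaccessible := by
  have h0 : ℵ₀ < #S := by
    rw [← not_le]
    exact fun h1 => hnt (Triv.of_le h h1)
  have h0' : ℵ₁ ≤ #S := Cardinal.aleph_one_le_iff.2 h0
  rcases h0'.eq_or_lt with h1 | h1
  · exact Or.inl h1.symm
  right
  have hloc : ∀ S' : Set Λ, #S' ≤ Order.succ ℵ₀ → Triv Φ ℵ₀ S' := by
    intro S' hS'
    rw [Cardinal.succ_aleph0] at hS'
    exact hmin S' (hS'.trans_lt h1)
  have hmin' : ∀ κ : Cardinal.{u}, κ < #S → ∀ S' : Set Λ, #S' ≤ κ → Triv Φ ℵ₀ S' :=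
    fun κ hκ S' hS' => hmin S' (hS'.trans_lt hκ)
  -- sets of size at most `2 ^ κ`
  have hs1 : ∀ κ : Cardinal.{u}, ℵ₀ ≤ κ → Order.succ κ < #S → 2 ^ κ < #S := by
    intro κ hκ hκ'
    by_contra h2
    rw [not_lt] at h2
    have h3 : Triv Φ κ S := triv_of_local h hκ
      (fun S' hS' => (hmin' _ hκ' S' hS').weaken hκ) h2
    exact hnt (h3.step h le_rfl (hmin' κ ((Order.lt_succ κ).trans hκ')))
  have hs2 : ∀ κ : Cardinal.{u}, ℵ₀ ≤ κ → κ ^ ℵ₀ = κ → κ < #S → 2 ^ κ < #S := by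
    intro κ hκ hκ' hκS
    by_contra h2
    rw [not_lt] at h2
    have h3 : Triv Φ κ S := exists_impl h hκ hκ' h2
    exact hnt (h3.step h le_rfl (hmin' κ hκS))
  -- the cardinality is regular
  have hreg : #S ≤ (#S).ord.cof := by
    by_contra h2
    rw [not_le] at h2
    obtain ⟨I, Q, hI, hch, hcov, hQ⟩ := exists_cover S h0.le
    refine hnt (triv_chain h (I := I) (Q := fun i => Subtype.val '' Q i) ?_ ?_ ?_ hloc ?_)
    · intro i j
      rcases hch i j with h3 | h3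
      · exact Or.inl (image_mono h3)
      · exact Or.inr (image_mono h3)
    · intro x hx
      obtain ⟨i, hi⟩ := hcov ⟨x, hx⟩
      exact ⟨i, ⟨x, hx⟩, hi, rfl⟩
    · intro i
      refine hmin _ ?_
      rw [Cardinal.mk_image_eq Subtype.val_injective]
      exact hQ i
    · refine hmin' _ ?_
      rw [hI, max_lt_iff]
      exact ⟨h2, h0⟩
  refine ⟨h0, hreg, fun κ hκS => ?_⟩
  rcases lt_or_ge κ ℵ₀ with hκ | hκ
  · exact (Cardinal.power_lt_aleph0 (Cardinal.natCast_lt_aleph0 (n := 2)) hκ).trans h0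
  rcases lt_or_ge (Order.succ κ) (#S) with hκ' | hκ'
  · exact hs1 κ hκ hκ'
  by_contra h2
  rw [not_lt] at h2
  have hκ1 : ℵ₀ < κ := by
    refine lt_of_le_of_ne hκ fun h3 => ?_
    rw [← h3, Cardinal.succ_aleph0] at hκ'
    exact absurd h1 (not_lt.2 hκ')
  have hκp : κ ^ ℵ₀ ≠ κ := fun h3 => absurd (hs2 κ hκ h3 hκS) (not_lt.2 h2)
  have hstr : κ.IsStrongLimit := by
    refine ⟨(Cardinal.aleph0_pos.trans hκ1).ne', fun x hx => ?_⟩
    rcases lt_or_ge x ℵ₀ with hx' | hx'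
    · exact (Cardinal.power_lt_aleph0 (Cardinal.natCast_lt_aleph0 (n := 2)) hx').trans hκ1
    have h3 : 2 ^ x < #S := hs1 x hx' ((Order.succ_le_of_lt hx).trans_lt hκS)
    have h4 : 2 ^ x ≤ κ := Order.lt_succ_iff.1 (h3.trans_le hκ')
    refine lt_of_le_of_ne h4 fun h5 => hκp ?_
    rw [← h5]
    exact (two_power hx').2
  have hcof : κ.ord.cof ≤ ℵ₀ := by
    by_contra h3
    rw [not_le] at h3
    exact hκp (power_eq hstr h3)
  -- the functions separating points
  obtain ⟨I, Q, hI, hch, hcov, hQ⟩ := exists_cover κ.out (by rw [Cardinal.mk_out]; exact hκ)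
  rw [Cardinal.mk_out] at hI
  have hT : #(Φ S) ≤ #(Set κ.out) := by
    rw [Cardinal.mk_set, Cardinal.mk_out]
    exact h.small (two_power hκ).1 (two_power hκ).2 h2
  obtain ⟨E⟩ := (Cardinal.le_def _ _).1 hT
  classical
  let d : ∀ i : I, Λ → Set (Q i) := fun i x =>
    {q | ∃ hx : x ∈ Φ S, (q : κ.out) ∈ E ⟨x, hx⟩}
  refine hnt (triv_cells h hκ1 hstr (hmin' κ hκS) (N := I) (hI.le.trans hcof)
    (P := fun i => Set (Q i)) (fun i => ?_) d ?_)
  · rw [Cardinal.mk_set]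
    refine hstr.isStrongPrelimit ?_
    have h3 := hQ i
    rwa [Cardinal.mk_out] at h3
  · intro x hx y hy hxy
    have h3 : E ⟨x, hx⟩ = E ⟨y, hy⟩ := by
      ext q
      obtain ⟨i, hi⟩ := hcov q
      have h4 := hxy i
      have h5 : (⟨q, hi⟩ : Q i) ∈ d i x ↔ (⟨q, hi⟩ : Q i) ∈ d i y := by rw [h4]
      constructor
      · intro h6
        exact (h5.1 ⟨hx, h6⟩).2
      · intro h6
        exact (h5.2 ⟨hy, h6⟩).2
    exact congrArg Subtype.val (E.injective h3)

end CKer
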