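import Pool.Agent.Lib_MP_3937af_ck.Sep

/-!
# The theorem for sets of size `2 ^ κ`, gluing, uniqueness
-/

set_option autoImplicit false

namespace CKer

open Set Cardinal

universe u

variable {Λ : Type u} {Φ Ψ : Set Λ → Set Λ}

/-- the related pairs -/
def Frame.R {κ : Cardinal.{u}} {S : Set Λ} (f : Frame Φ κ S) (x y : Λ) : Prop :=
  ∀ i, x ∈ f.F i ↔ y ∈ Φ (f.F i)

/-- the main claim -/
theorem Frame.mc (h : AutPair Φ Ψ) {κ : Cardinal.{u}} {S : Set Λ} (f : Frame Φ κ S)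
    {C D : Set Λ} (hC : C.Countable) (hD : D.Infinite) (hDC : SF D (Φ C))
    (hDX : ∀ y ∈ D, y ∉ f.X) : ∃ x ∈ C, ∃ y ∈ D, f.R x y := by
  by_contra hcon
  push Not at hcon
  have hCne : C.Nonempty := by
    rw [Set.nonempty_iff_ne_empty]
    rintro rfl
    exact hD (hDC.finite h.empty)
  obtain ⟨D', hD'D, hD'i, hD'c⟩ := exists_ctbl hD
  obtain ⟨c, hc⟩ := hC.exists_eq_range hCne
  obtain ⟨d, hd⟩ := hD'c.exists_eq_range hD'i.nonempty
  have hcC : ∀ k, c k ∈ C := fun k => by rw [hc]; exact mem_range_self k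
  have hdD : ∀ k, d k ∈ D := fun k => hD'D (by rw [hd]; exact mem_range_self k)
  have h1 : ∀ p : ℕ × ℕ, ∃ i, ¬ (c p.1 ∈ f.F i ↔ d p.2 ∈ Φ (f.F i)) := by
    intro p
    have h2 := hcon (c p.1) (hcC _) (d p.2) (hdD _)
    unfold Frame.R at h2
    push Not at h2
    obtain ⟨i, hi⟩ := h2
    exact ⟨i, fun h3 => by tauto⟩
  choose a ha using h1
  let b : ℕ → f.I := fun n => a (Nat.pairEquiv.symm n)
  let s : ℕ → ℕ → Prop := fun k n => c k ∈ f.F (b n)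
  have h2 : C ⊆ ZZ (fun n => f.F (b n)) s := by
    intro x hx
    rw [hc] at hx
    obtain ⟨k, rfl⟩ := hx
    exact ⟨k, fun n => Iff.rfl⟩
  have h3 : SF D' (Φ (ZZ (fun n => f.F (b n)) s)) :=
    (hDC.mono hD'D subset_rfl).trans (h.sf (SF.of_subset h2))
  obtain ⟨y, hy, hy'⟩ := (h3.infinite_inter hD'i).nonempty
  obtain ⟨k, hk⟩ := f.zz b s y (hDX y (hD'D hy)) hy'
  rw [hd] at hy
  obtain ⟨l, rfl⟩ := hy
  have h4 := hk (Nat.pairEquiv (k, l))
  simp only [b, s, Equiv.symm_apply_apply] at h4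
  exact ha (k, l) h4.symm

theorem Frame.finite_inter_X (h : AutPair Φ Ψ) {κ : Cardinal.{u}} (hκ : ℵ₀ ≤ κ)
    (hκ' : κ ^ ℵ₀ = κ) {S : Set Λ} (f : Frame Φ κ S) : ∃ X : Set Λ, f.X ⊆ X ∧ #X ≤ κ ∧
      ∀ C : Set Λ, C.Countable → C ∩ X = ∅ → (Φ C ∩ f.X).Finite := by
  obtain ⟨𝒞, h1, h2, h3⟩ := exists_max
    (fun C : Set Λ => C.Infinite ∧ C.Countable ∧ SF (Φ C) f.X)
  have h4 : #𝒞 ≤ κ := by
    refine adis hκ' (fun C : 𝒞 => Φ C) f.le (fun C => h.infinite (h1 C C.2).1)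
      (fun C => (h1 C C.2).2.2) fun C D hCD => h.inter_finite ?_
    rw [h2 C C.2 D D.2 fun h5 => hCD (Subtype.ext h5)]
    exact finite_empty
  refine ⟨f.X ∪ ⋃₀ 𝒞, subset_union_left, mk_union_le' hκ f.le ?_, fun C hC hCX => ?_⟩
  · rw [sUnion_eq_iUnion]
    exact mk_iUnion_le' hκ h4 fun C => mk_countable_le hκ (h1 C C.2).2.1
  · by_contra hinf
    have h5 : (Ψ (Φ C ∩ f.X) ∩ C).Infinite :=
      SF.infinite_inter (h.of_psi.1 (SF.of_subset inter_subset_left)) (h.swap.infinite hinf)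
    have h6 : SF (Φ (Ψ (Φ C ∩ f.X) ∩ C)) f.X :=
      (h.to_psi.2 (SF.of_subset inter_subset_left)).trans (SF.of_subset inter_subset_right)
    have h7 := h3 _ ⟨h5, hC.mono inter_subset_right, h6⟩ (by
      rw [Set.eq_empty_iff_forall_notMem] at hCX ⊢
      exact fun x hx => hCX x ⟨hx.1.2, Or.inr hx.2⟩)
    exact h5.nonempty.ne_empty h7

/-- the theorem for sets of size `2 ^ κ` -/
theorem exists_impl (h : AutPair Φ Ψ) {κ : Cardinal.{u}} (hκ : ℵ₀ ≤ κ) (hκ' : κ ^ ℵ₀ = κ)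
    {S : Set Λ} (hS : #S ≤ 2 ^ κ) : ∃ (X : Set Λ) (e : Λ → Λ), #X ≤ κ ∧ Impl Φ e (S \ X) := by
  obtain ⟨f⟩ := exists_frame h hκ hκ' hS
  obtain ⟨X, hfX, hX, hCX⟩ := f.finite_inter_X h hκ hκ'
  classical
  let e : Λ → Λ := fun x => if hx : ∃ y ∈ Φ S \ f.X, f.R x y then hx.choose else x
  have he : ∀ x y, y ∈ Φ S \ f.X → f.R x y → e x = y := by
    intro x y hy hxy
    have hx : ∃ y ∈ Φ S \ f.X, f.R x y := ⟨y, hy, hxy⟩
    have h1 : e x = hx.choose := dif_pos hx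
    rw [h1]
    refine f.inj _ hx.choose_spec.1 _ hy fun i => ?_
    rw [← hx.choose_spec.2 i, ← hxy i]
  -- the key step
  have key : ∀ C D : Set Λ, C.Infinite → C.Countable → C ⊆ S \ X → SF (Φ C) D →
      ∃ x ∈ C, e x ∈ D := by
    intro C D hCi hCc hCS hCD
    have h1 : SF (Φ C) (Φ S) := h.sf (SF.of_subset fun x hx => (hCS hx).1)
    have h2 : (Φ C ∩ f.X).Finite := hCX C hCc (by
      rw [Set.eq_empty_iff_forall_notMem]
      exact fun x hx => (hCS hx.1).2 hx.2)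
    have h3 : ((Φ C ∩ (D ∩ Φ S)) \ f.X).Infinite := by
      intro h4
      have h5 : (Φ C ∩ (D ∩ Φ S)).Finite := by
        refine (Set.Finite.union h4 h2).subset fun x hx => ?_
        by_cases hx' : x ∈ f.X
        · exact Or.inr ⟨hx.1, hx'⟩
        · exact Or.inl ⟨hx, hx'⟩
      exact (SF.inter hCD h1).infinite_inter (h.infinite hCi) h5
    obtain ⟨x, hx, y, hy, hxy⟩ := f.mc h hCc h3
      (SF.of_subset fun z hz => hz.1.1) fun z hz => hz.2
    refine ⟨x, hx, ?_⟩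
    rw [he x y ⟨hy.1.2.2, hy.2⟩ hxy]
    exact hy.1.2.1
  refine ⟨X, e, hX, fun A hA => ⟨?_, ?_⟩⟩
  · by_contra hinf
    have h1 : (Ψ (Φ A \ e '' A) ∩ A).Infinite :=
      SF.infinite_inter (h.of_psi.1 (SF.of_subset sdiff_subset)) (h.swap.infinite hinf)
    obtain ⟨C, hCA, hCi, hCc⟩ := exists_ctbl h1
    obtain ⟨x, hx, hx'⟩ := key C (Φ A \ e '' A) hCi hCc (fun x hx => hA (hCA hx).2)
      (h.to_psi.2 (SF.of_subset fun x hx => (hCA hx).1))
    exact hx'.2 ⟨x, (hCA hx).2, rfl⟩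
  · by_contra hinf
    have h1 : {x | x ∈ A ∧ e x ∉ Φ A}.Infinite := by
      intro h2
      refine hinf ((h2.image e).subset ?_)
      rintro _ ⟨⟨x, hx, rfl⟩, hx'⟩
      exact ⟨x, ⟨hx, hx'⟩, rfl⟩
    obtain ⟨C, hCA, hCi, hCc⟩ := exists_ctbl h1
    obtain ⟨x, hx, hx'⟩ := key C (Φ A) hCi hCc (fun x hx => hA (hCA hx).1)
      (h.sf (SF.of_subset fun x hx => (hCA hx).1))
    exact (hCA hx).2 hx'

theorem Impl.mono {e : Λ → Λ} {A B : Set Λ} (h : Impl Φ e B) (hAB : A ⊆ B) : Impl Φ e A :=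
  fun C hC => h C (hC.trans hAB)

theorem Impl.congr {e e' : Λ → Λ} {B : Set Λ} (h : Impl Φ e B) (he : ∀ x ∈ B, e x = e' x) :
    Impl Φ e' B := by
  intro A hA
  rw [← Set.image_congr fun x hx => he x (hA hx)]
  exact h A hA

theorem Impl.union (hΦ : AutPair Φ Ψ) {e : Λ → Λ} {A B : Set Λ} (hA : Impl Φ e A)
    (hB : Impl Φ e B) : Impl Φ e (A ∪ B) := by
  intro C hC
  have h1 : C = (C ∩ A) ∪ (C ∩ B) := by
    rw [← inter_union_distrib_left]
    exact (inter_eq_left.2 hC).symm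
  have h2 := (hA (C ∩ A) inter_subset_right).union (hB (C ∩ B) inter_subset_right)
  rw [← image_union, ← h1] at h2
  refine EF.trans ?_ h2
  have h3 := hΦ.union (C ∩ A) (C ∩ B)
  rwa [← h1] at h3

theorem Impl.glue (hΦ : AutPair Φ Ψ) {e e' : Λ → Λ} {A B : Set Λ} (hA : Impl Φ e (A \ B))
    (hB : Impl Φ e' B) : ∃ e'' : Λ → Λ, Impl Φ e'' (A ∪ B) := by
  classical
  refine ⟨fun x => if x ∈ B then e' x else e x, ?_⟩
  rw [← sdiff_union_self]
  refine Impl.union hΦ (hA.congr fun x hx => ?_) (hB.congr fun x hx => ?_)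
  · rw [if_neg hx.2]
  · rw [if_pos hx]

theorem Impl.fiber (hΦ : AutPair Φ Ψ) {e : Λ → Λ} {B : Set Λ} (hB : Impl Φ e B) (y : Λ) :
    {x | x ∈ B ∧ e x = y}.Finite := by
  have h1 := (hB {x | x ∈ B ∧ e x = y} fun x hx => hx.1).1
  refine hΦ.finite_iff.1 (h1.finite ((finite_singleton y).subset ?_))
  rintro _ ⟨x, hx, rfl⟩
  exact hx.2

/-- two maps implementing the automorphism below `B` differ at finitely many points of `B` -/
theorem Impl.unique (hΦ : AutPair Φ Ψ) {e e' : Λ → Λ} {B : Set Λ} (hB : Impl Φ e B)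
    (hB' : Impl Φ e' B) : {x | x ∈ B ∧ e x ≠ e' x}.Finite := by
  by_contra hinf
  obtain ⟨f, hf, hf'⟩ := exists_seq_of_forall_finset_exists
    (fun x : Λ => x ∈ B ∧ e x ≠ e' x)
    (fun x y => x ≠ y ∧ e x ≠ e' y ∧ e' x ≠ e y) (by
      intro s hs
      have h1 : (⋃ x ∈ s, ({x} ∪ {y | y ∈ B ∧ e' y = e x} ∪ {y | y ∈ B ∧ e y = e' x})).Finite :=
        s.finite_toSet.biUnion fun x _ =>
          Set.Finite.union (Set.Finite.union (finite_singleton x) (hB'.fiber hΦ _))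
            (hB.fiber hΦ _)
      obtain ⟨y, hy, hy'⟩ := (Set.Infinite.sdiff hinf h1).nonempty
      refine ⟨y, hy, fun x hx => ⟨?_, ?_, ?_⟩⟩
      · rintro rfl
        exact hy' (mem_iUnion₂.2 ⟨x, hx, Or.inl (Or.inl rfl)⟩)
      · intro h2
        exact hy' (mem_iUnion₂.2 ⟨x, hx, Or.inl (Or.inr ⟨hy.1, h2.symm⟩)⟩)
      · intro h2
        exact hy' (mem_iUnion₂.2 ⟨x, hx, Or.inr ⟨hy.1, h2.symm⟩⟩))
  have hinj : Function.Injective f := by
    intro m n hmn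
    rcases lt_trichotomy m n with h1 | h1 | h1
    · exact absurd hmn (hf' m n h1).1
    · exact h1
    · exact absurd hmn.symm (hf' n m h1).1
  have hAinf : (range f).Infinite := Set.infinite_range_of_injective hinj
  have hAB : range f ⊆ B := by
    rintro _ ⟨n, rfl⟩
    exact (hf n).1
  have h1 : SF (e '' range f) (e' '' range f) := (hB _ hAB).2.trans (hB' _ hAB).1
  have h2 : (Φ (range f)).Infinite := hΦ.infinite hAinf
  have h3 : (e '' range f).Infinite := fun h4 => h2 ((hB _ hAB).1.finite h4)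
  obtain ⟨z, hz, hz'⟩ := (h1.infinite_inter h3).nonempty
  obtain ⟨_, ⟨m, rfl⟩, rfl⟩ := hz
  obtain ⟨_, ⟨n, rfl⟩, hmn⟩ := hz'
  rcases lt_trichotomy m n with h4 | h4 | h4
  · exact (hf' m n h4).2.1 hmn.symm
  · rw [h4] at hmn
    exact (hf n).2 hmn.symm
  · exact (hf' n m h4).2.2 hmn

end CKer
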