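import Pool.Agent.Lib_MP_3937af_ck.Main

/-!
# Restrictions and extensions of automorphisms
-/

set_option autoImplicit false

namespace CKer

open Set Cardinal

universe u

theorem SF.preimage {Λ Λ' : Type u} {U V : Set Λ} (h : SF U V) {g : Λ' → Λ}
    (hg : Function.Injective g) : SF (g ⁻¹' U) (g ⁻¹' V) := by
  have h1 : (g ⁻¹' (U \ V)).Finite := Set.Finite.preimage hg.injOn h
  exact h1

theorem EF.preimage {Λ Λ' : Type u} {U V : Set Λ} (h : EF U V) {g : Λ' → Λ}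
    (hg : Function.Injective g) : EF (g ⁻¹' U) (g ⁻¹' V) :=
  ⟨h.1.preimage hg, h.2.preimage hg⟩

theorem SF.image {Λ Λ' : Type u} {U V : Set Λ'} (h : SF U V) (g : Λ' → Λ) :
    SF (g '' U) (g '' V) := by
  refine (Set.Finite.image g h).subset ?_
  rintro _ ⟨⟨x, hx, rfl⟩, hx'⟩
  exact ⟨x, ⟨hx, fun h1 => hx' ⟨x, h1, rfl⟩⟩, rfl⟩

theorem EF.image {Λ Λ' : Type u} {U V : Set Λ'} (h : EF U V) (g : Λ' → Λ) :
    EF (g '' U) (g '' V) := ⟨h.1.image g, h.2.image g⟩

theorem SF.of_image {Λ Λ' : Type u} {U V : Set Λ'} {g : Λ' → Λ} (hg : Function.Injective g)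
    (h : SF (g '' U) (g '' V)) : SF U V := by
  have h1 := h.preimage hg
  rwa [preimage_image_eq _ hg, preimage_image_eq _ hg] at h1

section

variable {Λ Λ' : Type u} {Φ Ψ : Set Λ → Set Λ}

/-- the restricted lifting -/
def rest (Φ : Set Λ → Set Λ) (j g : Λ' → Λ) (A : Set Λ') : Set Λ' := g ⁻¹' Φ (j '' A)

theorem image_rest (h : AutPair Φ Ψ) {j g : Λ' → Λ} (hgj : SF (Φ (range j)) (range g))
    (A : Set Λ') : EF (g '' rest Φ j g A) (Φ (j '' A)) := by
  rw [rest, image_preimage_eq_inter_range]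
  refine ⟨SF.of_subset inter_subset_left, ?_⟩
  exact SF.inter (SF.refl _) ((h.sf (SF.of_subset (image_subset_range j A))).trans hgj)

theorem rest_le (h : AutPair Φ Ψ) {j g : Λ' → Λ} (hj : Function.Injective j)
    (hg : Function.Injective g) (hgj : SF (Φ (range j)) (range g)) (A B : Set Λ') :
    SF (rest Φ j g A) (rest Φ j g B) ↔ SF A B := by
  constructor
  · intro h1
    refine SF.of_image hj ((h.le _ _).1 ?_)
    exact (image_rest h hgj A).2.trans ((h1.image g).trans (image_rest h hgj B).1)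
  · intro h1
    exact (h.sf (h1.image j)).preimage hg

theorem rest_lr (h : AutPair Φ Ψ) {j g : Λ' → Λ} (hj : Function.Injective j)
    (hgj : SF (Φ (range j)) (range g)) (A : Set Λ') :
    EF (rest Ψ g j (rest Φ j g A)) A := by
  have h1 := (h.swap.ef (image_rest h hgj A)).trans (h.lr _)
  have h2 := h1.preimage hj
  rwa [preimage_image_eq _ hj] at h2

theorem rest_pair (h : AutPair Φ Ψ) {j g : Λ' → Λ} (hj : Function.Injective j)
    (hg : Function.Injective g) (hgj : EF (Φ (range j)) (range g)) :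
    AutPair (rest Φ j g) (rest Ψ g j) := by
  have h1 : SF (Ψ (range g)) (range j) := h.of_psi.1 hgj.2
  exact ⟨rest_le h hj hg hgj.1, rest_le h.swap hg hj h1, rest_lr h hj hgj.1,
    rest_lr h.swap hg h1⟩

theorem rest_impl (h : AutPair Φ Ψ) {j g : Λ' → Λ} (hj : Function.Injective j)
    (hgj : SF (Φ (range j)) (range g)) {A : Set Λ'} {e : Λ' → Λ'}
    (he : Impl (rest Φ j g) e A) : ∃ e' : Λ → Λ, Impl Φ e' (j '' A) := by
  classical
  refine ⟨Function.extend j (g ∘ e) id, fun B hB => ?_⟩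
  obtain ⟨B', hB', rfl⟩ := subset_image_iff.1 hB
  have h1 : Function.extend j (g ∘ e) id '' (j '' B') = g '' (e '' B') := by
    rw [image_image, image_image]
    exact image_congr fun x _ => hj.extend_apply _ _ x
  rw [h1]
  exact (image_rest h hgj B').symm.trans ((he B' hB').image g)

end

section

variable {Λ Λ' : Type u} {Φ Ψ : Set Λ' → Set Λ'}

/-- the extension by the identity -/
def ext (Φ : Set Λ' → Set Λ') (j : Λ' → Λ) (A : Set Λ) : Set Λ :=
  j '' Φ (j ⁻¹' A) ∪ A \ range j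

theorem preimage_ext {j : Λ' → Λ} (hj : Function.Injective j) (A : Set Λ) :
    j ⁻¹' ext Φ j A = Φ (j ⁻¹' A) := by
  rw [ext, preimage_union, preimage_image_eq _ hj]
  have h1 : j ⁻¹' (A \ range j) = ∅ := by
    rw [Set.eq_empty_iff_forall_notMem]
    exact fun x hx => hx.2 ⟨x, rfl⟩
  rw [h1, union_empty]

theorem ext_sdiff (j : Λ' → Λ) (A : Set Λ) : ext Φ j A \ range j = A \ range j := by
  rw [ext]
  ext x
  constructor
  · rintro ⟨h1 | h1, h2⟩
    · exact absurd (image_subset_range _ _ h1) h2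
    · exact h1
  · exact fun h1 => ⟨Or.inr h1, h1.2⟩

theorem sf_iff {j : Λ' → Λ} (hj : Function.Injective j) (A B : Set Λ) :
    SF A B ↔ SF (j ⁻¹' A) (j ⁻¹' B) ∧ SF (A \ range j) (B \ range j) := by
  constructor
  · intro h1
    exact ⟨h1.preimage hj, Set.Finite.subset h1 fun x hx => ⟨hx.1.1, fun h2 =>
      hx.2 ⟨h2, hx.1.2⟩⟩⟩
  · rintro ⟨h1, h2⟩
    refine (Set.Finite.union (h1.image j) h2).subset ?_
    rintro x ⟨hx, hx'⟩
    by_cases h3 : x ∈ range j
    · obtain ⟨y, rfl⟩ := h3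
      refine Or.inl ⟨⟨y, hx, rfl⟩, ?_⟩
      rintro ⟨z, hz, hzy⟩
      rw [hj hzy] at hz
      exact hx' hz
    · exact Or.inr ⟨⟨hx, h3⟩, fun h4 => hx' h4.1⟩

theorem ext_le (h : AutPair Φ Ψ) {j : Λ' → Λ} (hj : Function.Injective j) (A B : Set Λ) :
    SF (ext Φ j A) (ext Φ j B) ↔ SF A B := by
  rw [sf_iff hj (ext Φ j A), sf_iff hj A, preimage_ext hj, preimage_ext hj, ext_sdiff, ext_sdiff,
    h.le]

theorem ext_lr (h : AutPair Φ Ψ) {j : Λ' → Λ} (hj : Function.Injective j) (A : Set Λ) :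
    EF (ext Ψ j (ext Φ j A)) A := by
  constructor
  · rw [sf_iff hj, preimage_ext hj, preimage_ext hj, ext_sdiff, ext_sdiff]
    exact ⟨(h.lr _).1, SF.refl _⟩
  · rw [sf_iff hj, preimage_ext hj, preimage_ext hj, ext_sdiff, ext_sdiff]
    exact ⟨(h.lr _).2, SF.refl _⟩

theorem ext_pair (h : AutPair Φ Ψ) {j : Λ' → Λ} (hj : Function.Injective j) :
    AutPair (ext Φ j) (ext Ψ j) :=
  ⟨ext_le h hj, ext_le h.swap hj, ext_lr h hj, ext_lr h.swap hj⟩

theorem ext_impl (h : AutPair Φ Ψ) {j : Λ' → Λ} (hj : Function.Injective j) {A : Set Λ}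
    {e : Λ → Λ} (he : Impl (ext Φ j) e A) : ∃ e' : Λ' → Λ', Impl Φ e' (j ⁻¹' A) := by
  classical
  let e' : Λ' → Λ' := fun x => if hx : ∃ y, j y = e (j x) then hx.choose else x
  have he' : ∀ x, (∃ y, j y = e (j x)) → j (e' x) = e (j x) := by
    intro x hx
    have h1 : e' x = hx.choose := dif_pos hx
    rw [h1]
    exact hx.choose_spec
  have hext : ∀ B : Set Λ', ext Φ j (j '' B) = j '' Φ B := by
    intro B
    rw [ext, preimage_image_eq _ hj]
    have h1 : j '' B \ range j = ∅ := sdiff_eq_empty.2 (image_subset_range _ _)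
    rw [h1, union_empty]
  have hN : {x | x ∈ j ⁻¹' A ∧ ¬ ∃ y, j y = e (j x)}.Finite := by
    set N : Set Λ' := {x | x ∈ j ⁻¹' A ∧ ¬ ∃ y, j y = e (j x)} with hNdef
    have h1 := (he (j '' N) (by rintro _ ⟨x, hx, rfl⟩; exact hx.1)).1
    rw [hext] at h1
    refine h.finite_iff.1 (Set.Finite.of_finite_image (h1.subset ?_) hj.injOn)
    rintro x hx
    refine ⟨hx, ?_⟩
    rintro ⟨_, ⟨y, hy, rfl⟩, hxy⟩
    obtain ⟨z, _, rfl⟩ := hx
    exact hy.2 ⟨z, hxy.symm⟩
  refine ⟨e', fun B hB => ?_⟩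
  have h1 := he (j '' B) (by rintro _ ⟨x, hx, rfl⟩; exact hB hx)
  rw [hext] at h1
  have h2 : EF (e '' (j '' B)) (j '' (e' '' B)) := by
    constructor
    · refine ((hN.image j).image e).subset ?_
      rintro _ ⟨⟨_, ⟨x, hx, rfl⟩, rfl⟩, h3⟩
      refine ⟨j x, ⟨x, ⟨hB hx, fun h4 => h3 ?_⟩, rfl⟩, rfl⟩
      exact ⟨e' x, ⟨x, hx, rfl⟩, he' x h4⟩
    · refine ((hN.image e').image j).subset ?_
      rintro _ ⟨⟨_, ⟨x, hx, rfl⟩, rfl⟩, h3⟩
      refine ⟨e' x, ⟨x, ⟨hB hx, fun h4 => h3 ?_⟩, rfl⟩, rfl⟩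
      exact ⟨j x, ⟨x, hx, rfl⟩, (he' x h4).symm⟩
  have h3 := (h1.trans h2).preimage hj
  rwa [preimage_image_eq _ hj, preimage_image_eq _ hj] at h3

end

end CKer
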