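import Pool.Agent.Lib_MP_3937af_ck.Main

/-!
# Patching: from sets of size `κ⁺` to sets of size `2 ^ κ`
-/

set_option autoImplicit false

namespace CKer

open Set Cardinal

universe u

variable {Λ : Type u} {Φ Ψ : Set Λ → Set Λ}

/-- the automorphism is trivial below `S` modulo a set of size at most `κ` -/
def Triv (Φ : Set Λ → Set Λ) (κ : Cardinal.{u}) (S : Set Λ) : Prop :=
  ∃ (X : Set Λ) (e : Λ → Λ), #X ≤ κ ∧ Impl Φ e (S \ X)

/-- a map which agrees, off sets of size `κ`, with the maps given by local triviality on the sets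
of size `κ⁺` implements the automorphism off a set of size `κ` -/
theorem patch (h : AutPair Φ Ψ) {κ : Cardinal.{u}} (hκ : ℵ₀ ≤ κ) {S : Set Λ} (g : Λ → Λ)
    (hg : ∀ S' ⊆ S, #S' ≤ Order.succ κ → ∃ (X : Set Λ) (f : Λ → Λ), #X ≤ κ ∧
      Impl Φ f (S' \ X) ∧ #{x | x ∈ S' \ X ∧ f x ≠ g x} ≤ κ) :
    ∃ X : Set Λ, #X ≤ κ ∧ Impl Φ g (S \ X) := by
  obtain ⟨𝒞, h1, h2, h3⟩ := exists_max
    (fun C : Set Λ => C.Infinite ∧ C.Countable ∧ C ⊆ S ∧ (Φ C ∩ g '' C).Finite)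
  have hs : ℵ₀ ≤ Order.succ κ := hκ.trans (Order.le_succ κ)
  have h4 : #𝒞 ≤ κ := by
    by_contra hcon
    rw [not_le] at hcon
    obtain ⟨𝒟, h𝒟, h𝒟'⟩ := Cardinal.le_mk_iff_exists_subset.1 (Order.succ_le_of_lt hcon)
    have h6 : #(⋃₀ 𝒟) ≤ Order.succ κ := by
      rw [sUnion_eq_iUnion]
      exact mk_iUnion_le' hs h𝒟'.le fun C => mk_countable_le hs (h1 C (h𝒟 C.2)).2.1
    obtain ⟨Y, f, hY, hf, hG⟩ := hg (⋃₀ 𝒟) (sUnion_subset fun C hC => (h1 C (h𝒟 hC)).2.2.1) h6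
    set G : Set Λ := {x | x ∈ ⋃₀ 𝒟 \ Y ∧ f x ≠ g x} with hGdef
    have h7 : ∀ C : 𝒟, ((C : Set Λ) ∩ (Y ∪ G)).Nonempty := by
      intro C
      rw [Set.nonempty_iff_ne_empty]
      intro h8
      rw [Set.eq_empty_iff_forall_notMem] at h8
      obtain ⟨h9, h10, h11, h12⟩ := h1 C (h𝒟 C.2)
      have h13 : ∀ x ∈ (C : Set Λ), x ∈ ⋃₀ 𝒟 \ Y := fun x hx =>
        ⟨⟨C, C.2, hx⟩, fun h14 => h8 x ⟨hx, Or.inl h14⟩⟩
      have h14 : f '' C = g '' C := by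
        refine Set.image_congr fun x hx => ?_
        by_contra h15
        exact h8 x ⟨hx, Or.inr ⟨h13 x hx, h15⟩⟩
      have h15 : SF (Φ C) (g '' C) := by
        rw [← h14]
        exact (hf C h13).1
      exact h15.infinite_inter (h.infinite h9) h12
    choose c hc using h7
    have h8 : #𝒟 ≤ #(Y ∪ G : Set Λ) := by
      refine Cardinal.mk_le_of_injective (f := fun C : 𝒟 => (⟨c C, (hc C).2⟩ : (Y ∪ G : Set Λ)))
        fun C D hCD => ?_
      by_contra hne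
      have h9 : c C = c D := congrArg Subtype.val hCD
      have h10 := h2 C (h𝒟 C.2) D (h𝒟 D.2) fun h11 => hne (Subtype.ext h11)
      rw [Set.eq_empty_iff_forall_notMem] at h10
      refine h10 (c C) ⟨(hc C).1, ?_⟩
      rw [h9]
      exact (hc D).1
    have h9 : #𝒟 ≤ κ := h8.trans (mk_union_le' hκ hY hG)
    rw [h𝒟'] at h9
    exact absurd (Order.lt_succ κ) (not_lt.2 h9)
  have key : ∀ A : Set Λ, A ⊆ S → A ∩ ⋃₀ 𝒞 = ∅ → A.Infinite → A.Countable →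
      (Φ A ∩ g '' A).Infinite := by
    intro C hCS hC hCi hCc hfin
    exact hCi.nonempty.ne_empty (h3 C ⟨hCi, hCc, hCS, hfin⟩ hC)
  refine ⟨⋃₀ 𝒞, ?_, fun A hA => ⟨?_, ?_⟩⟩
  · rw [sUnion_eq_iUnion]
    exact mk_iUnion_le' hκ h4 fun C => mk_countable_le hκ (h1 C C.2).2.1
  · by_contra hinf
    have h5 : (Ψ (Φ A \ g '' A) ∩ A).Infinite :=
      SF.infinite_inter (h.of_psi.1 (SF.of_subset sdiff_subset)) (h.swap.infinite hinf)
    obtain ⟨C, hCA, hCi, hCc⟩ := exists_ctbl h5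
    refine key C (fun x hx => (hA (hCA hx).2).1) ?_ hCi hCc ?_
    · rw [Set.eq_empty_iff_forall_notMem]
      exact fun x hx => (hA (hCA hx.1).2).2 hx.2
    · have h6 : SF (Φ C) (Φ A \ g '' A) :=
        h.to_psi.2 (SF.of_subset fun x hx => (hCA hx).1)
      refine Set.Finite.subset h6 fun x hx => ⟨hx.1, fun h7 => h7.2 ?_⟩
      exact image_mono (fun y hy => (hCA hy).2) hx.2
  · by_contra hinf
    have h5 : {x | x ∈ A ∧ g x ∉ Φ A}.Infinite := by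
      intro h6
      refine hinf ((h6.image g).subset ?_)
      rintro _ ⟨⟨x, hx, rfl⟩, hx'⟩
      exact ⟨x, ⟨hx, hx'⟩, rfl⟩
    obtain ⟨C, hCA, hCi, hCc⟩ := exists_ctbl h5
    refine key C (fun x hx => (hA (hCA hx).1).1) ?_ hCi hCc ?_
    · rw [Set.eq_empty_iff_forall_notMem]
      exact fun x hx => (hA (hCA hx.1).1).2 hx.2
    · have h6 : SF (Φ C) (Φ A) := h.sf (SF.of_subset fun x hx => (hCA hx).1)
      refine Set.Finite.subset h6 ?_
      rintro x ⟨hx, ⟨y, hy, rfl⟩⟩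
      exact ⟨hx, (hCA hy).2⟩

/-- a set whose image under a map implementing the automorphism is finite is finite -/
theorem Impl.finite_of_image (h : AutPair Φ Ψ) {f : Λ → Λ} {B A : Set Λ} (hf : Impl Φ f B)
    (hA : A ⊆ B) (hfin : (f '' A).Finite) : A.Finite :=
  h.finite_iff.1 ((hf A hA).1.finite hfin)

/-- a map implementing the automorphism below `B` respects membership in `Ψ G` and in `G` up to
finitely many points -/
theorem Impl.error (h : AutPair Φ Ψ) {f : Λ → Λ} {B : Set Λ} (hf : Impl Φ f B) (G : Set Λ) :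
    {x | x ∈ B ∧ ¬ (x ∈ Ψ G ↔ f x ∈ G)}.Finite := by
  have h1 : {x | x ∈ B ∧ x ∈ Ψ G ∧ f x ∉ G}.Finite := by
    refine hf.finite_of_image h (fun x hx => hx.1) ?_
    have h2 : SF (f '' (B ∩ Ψ G)) G :=
      (hf (B ∩ Ψ G) inter_subset_left).2.trans
        ((h.sf (SF.of_subset inter_subset_right)).trans (h.rl G).1)
    refine Set.Finite.subset h2 ?_
    rintro _ ⟨x, hx, rfl⟩
    exact ⟨⟨x, ⟨hx.1, hx.2.1⟩, rfl⟩, hx.2.2⟩
  have h3 : {x | x ∈ B ∧ x ∉ Ψ G ∧ f x ∈ G}.Finite := by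
    refine hf.finite_of_image h (fun x hx => hx.1) ?_
    have h4 : (Φ (B \ Ψ G) ∩ Φ (Ψ G)).Finite := h.inter_finite (by
      rw [sdiff_inter_self]
      exact finite_empty)
    have h5 : (f '' (B \ Ψ G) ∩ G).Finite := by
      refine (Set.Finite.union (Set.Finite.union h4 (hf (B \ Ψ G) sdiff_subset).2)
        (h.rl G).2).subset ?_
      rintro x ⟨hx, hx'⟩
      by_cases h6 : x ∈ Φ (B \ Ψ G)
      · by_cases h7 : x ∈ Φ (Ψ G)
        · exact Or.inl (Or.inl ⟨h6, h7⟩)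
        · exact Or.inr ⟨hx', h7⟩
      · exact Or.inl (Or.inr ⟨hx, h6⟩)
    refine h5.subset ?_
    rintro _ ⟨x, hx, rfl⟩
    exact ⟨⟨x, ⟨hx.1, hx.2.1⟩, rfl⟩, hx.2.2⟩
  refine (Set.Finite.union h1 h3).subset fun x hx => ?_
  by_cases h4 : x ∈ Ψ G
  · exact Or.inl ⟨hx.1, h4, fun h5 => hx.2 ⟨fun _ => h5, fun _ => h4⟩⟩
  · refine Or.inr ⟨hx.1, h4, ?_⟩
    by_contra h5
    exact hx.2 ⟨fun h6 => absurd h6 h4, fun h6 => absurd h6 h5⟩

/-- local triviality on the sets of size `κ⁺` implies triviality on the sets of size `2 ^ κ` -/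
theorem triv_of_local (h : AutPair Φ Ψ) {κ : Cardinal.{u}} (hκ : ℵ₀ ≤ κ)
    (hloc : ∀ S : Set Λ, #S ≤ Order.succ κ → Triv Φ κ S) {S : Set Λ} (hS : #S ≤ 2 ^ κ) :
    Triv Φ κ S := by
  have hT : #(Φ S) ≤ 2 ^ κ := h.small (two_power hκ).1 (two_power hκ).2 hS
  have hK : #(Set κ.out) = 2 ^ κ := by rw [Cardinal.mk_set, Cardinal.mk_out]
  rw [← hK] at hT
  obtain ⟨E⟩ := (Cardinal.le_def _ _).1 hT
  let G : κ.out → Set Λ := fun k => {x | ∃ hx : x ∈ Φ S, k ∈ E ⟨x, hx⟩}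
  have hG : ∀ x ∈ Φ S, ∀ y ∈ Φ S, (∀ k, x ∈ G k ↔ y ∈ G k) → x = y := by
    intro x hx y hy hxy
    have h1 : E ⟨x, hx⟩ = E ⟨y, hy⟩ := by
      ext k
      have h2 := hxy k
      constructor
      · intro h3
        exact (h2.1 ⟨hx, h3⟩).2
      · intro h3
        exact (h2.2 ⟨hy, h3⟩).2
    exact congrArg Subtype.val (E.injective h1)
  classical
  let g : Λ → Λ := fun x => if hx : ∃ y ∈ Φ S, ∀ k, (x ∈ Ψ (G k) ↔ y ∈ G k) then hx.choose else x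
  have hgx : ∀ x y, y ∈ Φ S → (∀ k, (x ∈ Ψ (G k) ↔ y ∈ G k)) → g x = y := by
    intro x y hy hxy
    have hx : ∃ y ∈ Φ S, ∀ k, (x ∈ Ψ (G k) ↔ y ∈ G k) := ⟨y, hy, hxy⟩
    have h1 : g x = hx.choose := dif_pos hx
    rw [h1]
    refine hG _ hx.choose_spec.1 _ hy fun k => ?_
    rw [← hx.choose_spec.2 k, ← hxy k]
  obtain ⟨X, hX, hX'⟩ := patch h hκ (S := S) g (by
    intro S' hS' hcard
    obtain ⟨X, f, hX, hf⟩ := hloc S' hcard
    refine ⟨X, f, hX, hf, ?_⟩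
    have h1 : #(⋃ k, {x | x ∈ S' \ X ∧ ¬ (x ∈ Ψ (G k) ↔ f x ∈ G k)} : Set Λ) ≤ κ :=
      mk_iUnion_le' hκ (Cardinal.mk_out κ).le fun k => mk_finite_le hκ (hf.error h (G k))
    have h2 : {x | x ∈ S' \ X ∧ f x ∉ Φ S}.Finite := by
      refine hf.finite_of_image h (fun x hx => hx.1) ?_
      have h3 : SF (f '' (S' \ X)) (Φ S) :=
        (hf _ subset_rfl).2.trans (h.sf (SF.of_subset (sdiff_subset.trans hS')))
      refine Set.Finite.subset h3 ?_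
      rintro _ ⟨x, hx, rfl⟩
      exact ⟨⟨x, hx.1, rfl⟩, hx.2⟩
    refine mk_mono' (mk_union_le' hκ h1 (mk_finite_le hκ h2)) fun x hx => ?_
    by_contra hcon
    refine hx.2 (hgx x (f x) ?_ fun k => ?_).symm
    · by_contra h3
      exact hcon (Or.inr ⟨hx.1, h3⟩)
    · by_contra h3
      exact hcon (Or.inl (mem_iUnion.2 ⟨k, hx.1, h3⟩)))
  exact ⟨X, g, hX, hX'⟩

theorem Impl.of_finite (h : AutPair Φ Ψ) (e : Λ → Λ) {B : Set Λ} (hB : B.Finite) :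
    Impl Φ e B := by
  intro A hA
  have h1 : A.Finite := hB.subset hA
  exact ⟨(h.finite_iff.2 h1).subset sdiff_subset, (h1.image e).subset sdiff_subset⟩

theorem Triv.of_le (h : AutPair Φ Ψ) {κ : Cardinal.{u}} {S : Set Λ} (hS : #S ≤ κ) :
    Triv Φ κ S :=
  ⟨S, id, hS, Impl.of_finite h id (by rw [sdiff_self]; exact finite_empty)⟩

end CKer
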