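import Pool.Agent.Lib_MP_3937af_ck.Count

/-!
# Automorphisms are trivial off a set of size `κ` on sets of size `2 ^ κ`
-/

set_option autoImplicit false

namespace CKer

open Set Cardinal

universe u

variable {Λ : Type u}

/-- a maximal disjoint family of sets with the property `P` -/
theorem exists_max (P : Set Λ → Prop) : ∃ 𝒞 : Set (Set Λ), (∀ C ∈ 𝒞, P C) ∧
    (∀ C ∈ 𝒞, ∀ D ∈ 𝒞, C ≠ D → C ∩ D = ∅) ∧ ∀ C, P C → C ∩ ⋃₀ 𝒞 = ∅ → C = ∅ := by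
  obtain ⟨𝒞, hmax⟩ := zorn_subset
    {𝒞 : Set (Set Λ) | (∀ C ∈ 𝒞, P C) ∧ ∀ C ∈ 𝒞, ∀ D ∈ 𝒞, C ≠ D → C ∩ D = ∅} (by
      intro c hc hch
      refine ⟨⋃₀ c, ⟨?_, ?_⟩, fun s hs => subset_sUnion_of_mem hs⟩
      · rintro C ⟨s, hs, hC⟩
        exact (hc hs).1 C hC
      · rintro C ⟨s, hs, hC⟩ D ⟨t, ht, hD⟩ hne
        rcases hch.total hs ht with h1 | h1
        · exact (hc ht).2 C (h1 hC) D hD hne
        · exact (hc hs).2 C hC D (h1 hD) hne)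
  have hmem := hmax.prop
  refine ⟨𝒞, hmem.1, hmem.2, fun C hC hdis => ?_⟩
  have h1 : insert C 𝒞 ∈ {𝒞 : Set (Set Λ) | (∀ C ∈ 𝒞, P C) ∧
      ∀ C ∈ 𝒞, ∀ D ∈ 𝒞, C ≠ D → C ∩ D = ∅} := by
    have h2 : ∀ D ∈ 𝒞, C ∩ D = ∅ := by
      intro D hD
      rw [Set.eq_empty_iff_forall_notMem] at hdis ⊢
      exact fun x hx => hdis x ⟨hx.1, D, hD, hx.2⟩
    refine ⟨?_, ?_⟩
    · rintro D (rfl | hD)
      · exact hC
      · exact hmem.1 D hD
    · rintro D (rfl | hD) E (rfl | hE) hne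
      · exact absurd rfl hne
      · exact h2 E hE
      · rw [inter_comm]; exact h2 D hD
      · exact hmem.2 D hD E hE hne
  have h2 : C ∈ 𝒞 := hmax.le_of_ge h1 (subset_insert C 𝒞) (mem_insert C 𝒞)
  rw [Set.eq_empty_iff_forall_notMem] at hdis ⊢
  exact fun x hx => hdis x ⟨hx, C, h2, hx⟩

/-- an infinite set contains a countable infinite set -/
theorem exists_ctbl {A : Set Λ} (hA : A.Infinite) : ∃ C ⊆ A, C.Infinite ∧ C.Countable := by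
  refine ⟨Set.range fun n => ((hA.natEmbedding A n : A) : Λ), ?_, ?_, countable_range _⟩
  · rintro _ ⟨n, rfl⟩
    exact (hA.natEmbedding A n).2
  · exact Set.infinite_range_of_injective fun m n h =>
      (hA.natEmbedding A).injective (Subtype.ext h)

/-- `e` implements the automorphism below `B` -/
def Impl (Φ : Set Λ → Set Λ) (e : Λ → Λ) (B : Set Λ) : Prop :=
  ∀ A ⊆ B, EF (Φ A) (e '' A)

/-- a family of sets whose images separate points, and the exceptional set -/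
structure Frame (Φ : Set Λ → Set Λ) (κ : Cardinal.{u}) (S : Set Λ) where
  /-- the index set -/
  I : Type u
  /-- the family of sets -/
  F : I → Set Λ
  /-- the exceptional set -/
  X : Set Λ
  le : #X ≤ κ
  zz : ∀ (a : ℕ → I) (s : ℕ → ℕ → Prop) (x : Λ), x ∉ X → x ∈ Φ (ZZ (fun n => F (a n)) s) →
    x ∈ ZZ (fun n => Φ (F (a n))) s
  inj : ∀ x ∈ Φ S \ X, ∀ y ∈ Φ S \ X, (∀ i, x ∈ Φ (F i) ↔ y ∈ Φ (F i)) → x = y

theorem two_power {κ : Cardinal.{u}} (hκ : ℵ₀ ≤ κ) :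
    ℵ₀ ≤ (2 : Cardinal.{u}) ^ κ ∧ ((2 : Cardinal.{u}) ^ κ) ^ ℵ₀ = 2 ^ κ :=
  ⟨hκ.trans (Cardinal.cantor κ).le, by rw [← Cardinal.power_mul, Cardinal.mul_aleph0_eq hκ]⟩

theorem exists_frame {Φ Ψ : Set Λ → Set Λ} (h : AutPair Φ Ψ) {κ : Cardinal.{u}} (hκ : ℵ₀ ≤ κ)
    (hκ' : κ ^ ℵ₀ = κ) {S : Set Λ} (hS : #S ≤ 2 ^ κ) : Nonempty (Frame Φ κ S) := by
  have hT : #(Φ S) ≤ 2 ^ κ := h.small (two_power hκ).1 (two_power hκ).2 hS
  have hK : #(Set κ.out) = 2 ^ κ := by rw [Cardinal.mk_set, Cardinal.mk_out]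
  rw [← hK] at hT
  obtain ⟨g⟩ := (Cardinal.le_def _ _).1 hT
  let G : κ.out → Set Λ := fun k => {x | ∃ hx : x ∈ Φ S, k ∈ g ⟨x, hx⟩}
  have hG : ∀ x ∈ Φ S, ∀ y ∈ Φ S, (∀ k, x ∈ G k ↔ y ∈ G k) → x = y := by
    intro x hx y hy hxy
    have h1 : g ⟨x, hx⟩ = g ⟨y, hy⟩ := by
      ext k
      have h2 := hxy k
      constructor
      · intro h3
        exact (h2.1 ⟨hx, h3⟩).2
      · intro h3
        exact (h2.2 ⟨hy, h3⟩).2
    exact congrArg Subtype.val (g.injective h1)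
  let F : κ.out → Set Λ := fun k => Ψ (G k)
  let J := (ℕ → κ.out) × (ℕ → ℕ → Prop)
  have hJ : #J ≤ κ := by
    have h1 : #(ℕ → κ.out) ≤ κ := by
      rw [Cardinal.mk_arrow, Cardinal.mk_nat, Cardinal.lift_aleph0, Cardinal.lift_id',
        Cardinal.mk_out]
      exact hκ'.le
    have h2 : Cardinal.lift.{u} #(ℕ → ℕ → Prop) ≤ κ := by
      have h3 : #(ℕ → ℕ → Prop) = 2 ^ ℵ₀ := by
        simp
      rw [h3, Cardinal.lift_power, Cardinal.lift_aleph0]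
      refine le_trans ?_ hκ'.le
      refine Cardinal.power_le_power_right ?_
      rw [Cardinal.lift_ofNat]
      exact (Cardinal.natCast_lt_aleph0 (n := 2)).le.trans hκ
    rw [Cardinal.mk_prod]
    refine (mul_le_mul' ?_ h2).trans (Cardinal.mul_eq_self hκ).le
    simpa using h1
  let X1 : Set Λ := ⋃ j : J, Φ (ZZ (fun n => F (j.1 n)) j.2) \ ZZ (fun n => Φ (F (j.1 n))) j.2
  let X2 : Set Λ := ⋃ k : κ.out, (Φ (Ψ (G k)) \ G k ∪ G k \ Φ (Ψ (G k)))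
  have hX1 : #X1 ≤ κ := mk_iUnion_le' hκ hJ fun j => (h.zz hκ hκ' _ _).1
  have hX2 : #X2 ≤ κ := by
    refine mk_iUnion_le' hκ (Cardinal.mk_out κ).le fun k => ?_
    exact mk_finite_le hκ (Set.Finite.union (h.rl (G k)).1 (h.rl (G k)).2)
  refine ⟨⟨κ.out, F, X1 ∪ X2, mk_union_le' hκ hX1 hX2, ?_, ?_⟩⟩
  · intro a s x hx hx'
    by_contra hc
    exact hx (Or.inl (mem_iUnion.2 ⟨(a, s), hx', hc⟩))
  · intro x hx y hy hxy
    refine hG x hx.1 y hy.1 fun k => ?_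
    have h1 : ∀ z, z ∉ X1 ∪ X2 → (z ∈ Φ (Ψ (G k)) ↔ z ∈ G k) := by
      intro z hz
      constructor
      · intro h2
        by_contra hc
        exact hz (Or.inr (mem_iUnion.2 ⟨k, Or.inl ⟨h2, hc⟩⟩))
      · intro h2
        by_contra hc
        exact hz (Or.inr (mem_iUnion.2 ⟨k, Or.inr ⟨h2, hc⟩⟩))
    rw [← h1 x hx.2, ← h1 y hy.2]
    exact hxy k

end CKer
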